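import Pool.Agent.Helper86.TMBase

/-!
# Definitions: prefix-free languages, operations on languages, the linear-time hierarchy
-/

namespace Pool.Agent.Helper95.LT

open Pool.Agent.Helper86

/-- `LINTIME` is closed under concatenation (over all finite alphabets). -/
def ConcatClosed : Prop :=
  ∀ (β : Type) [Finite β] (L₁ L₂ : Language β), LINTIME L₁ → LINTIME L₂ → LINTIME (L₁ * L₂)

/-- No word of `C` is a proper prefix of a word of `C`. -/
def PrefixFree {α : Type} (C : Language α) : Prop := ∀ u ∈ C, ∀ v ∈ C, u <+: v → u = v

/-- `R` is a union of finitely many prefix-free languages. -/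
def FinPrefixFree {α : Type} (R : Language α) : Prop :=
  ∃ (n : ℕ) (C : Fin n → Language α), (∀ i, PrefixFree (C i)) ∧ ∀ w, w ∈ R ↔ ∃ i, w ∈ C i

/-- No word of `C` is a proper suffix of a word of `C`. -/
def SuffixFree {α : Type} (C : Language α) : Prop := ∀ u ∈ C, ∀ v ∈ C, u <:+ v → u = v

/-- `R` is a union of finitely many suffix-free languages. -/
def FinSuffixFree {α : Type} (R : Language α) : Prop :=
  ∃ (n : ℕ) (C : Fin n → Language α), (∀ i, SuffixFree (C i)) ∧ ∀ w, w ∈ R ↔ ∃ i, w ∈ C i

/-- `Min(R)`: the words of `R` with no proper prefix in `R`. -/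
def minL {α : Type} (R : Language α) : Language α :=
  {u | u ∈ R ∧ ∀ u', u' <+: u → u' ≠ u → u' ∉ R}

/-- The cyclic shifts of the words of `L`. -/
def cyc {α : Type} (L : Language α) : Language α := {w | ∃ u v, w = v ++ u ∧ u ++ v ∈ L}

/-- The words obtained from a word of `L` by deleting one occurrence of the letter `a`. -/
def del1 {α : Type} (a : α) (L : Language α) : Language α :=
  {w | ∃ u v, w = u ++ v ∧ u ++ a :: v ∈ L}

/-- The words in which one position can be marked such that the marked word is in `S`. -/
def exQ {α : Type} (S : Language (α × Bool)) : Language α :=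
  {w | ∃ u a v, w = u ++ a :: v ∧
    (u.map fun x => (x, false)) ++ (a, true) :: (v.map fun x => (x, false)) ∈ S}

/-- Languages decided by a deterministic multitape Turing machine in time `c * 2 ^ ⌊|w| / q⌋` for
some constant `c`. -/
def ExpTime {α : Type} (q : ℕ) (L : Language α) : Prop :=
  ∃ (M : Machine α) (c : ℕ), ∀ w : List α,
    (w ∈ L → M.run (c * 2 ^ (w.length / q)) (M.init w) = some true) ∧
    (w ∉ L → M.run (c * 2 ^ (w.length / q)) (M.init w) = some false)

/-- The linear-time hierarchy: the smallest class that contains the languages in `LINTIME` and is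
closed under complement and under linearly bounded existential quantification over binary words
(the alphabet of `P` is the disjoint union of `{0,1}` and the alphabet of the language). -/
inductive LinH : (α : Type) → Language α → Prop
  | base {α : Type} {L : Language α} (h : LINTIME L) : LinH α L
  | compl {α : Type} {L : Language α} (h : LinH α L) : LinH α {w | w ∉ L}
  | guess {α : Type} (c : ℕ) {P : Language (Bool ⊕ α)} (h : LinH (Bool ⊕ α) P) :
      LinH α {w | ∃ y : List Bool, y.length ≤ c * (w.length + 1) ∧
        y.map Sum.inl ++ w.map Sum.inr ∈ P}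

end Pool.Agent.Helper95.LT
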