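import Pool.Agent.Helper95.LT.Trans

/-!
# Closure properties of REALTIME

Inverse images under finite-state transducers with at most one output letter per input letter,
block codes, and words with a fixed end.
-/

namespace Pool.Agent.Helper95.LT

open Pool.Agent.Helper86 Pool.Agent.Helper86.Prog

section trans

variable {α β σ : Type}

/-- Output of a finite-state transducer with at most one output letter per input letter. -/
def oout (f : σ → α → σ) (g : σ → α → Option β) : σ → List α → List β
  | _, [] => []
  | s, x :: w => (g s x).toList ++ oout f g (f s x) w

/-- the machine that runs `M` on the output of a transducer -/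
def transMachine [hσ : Finite σ] (f : σ → α → σ) (g : σ → α → Option β) (s₀ : σ) (A : Set σ)
    (M : RTMachine β) : RTMachine α where
  ι := M.ι
  finι := M.finι
  Γ := M.Γ
  finΓ := M.finΓ
  blank := M.blank
  Q := σ × M.Q
  finQ := by
    have := M.finQ
    infer_instance
  start := (s₀, M.start)
  δ := fun q x o =>
    match g q.1 x with
    | none => ((f q.1 x, q.2), fun i => (o i, Dir.stay))
    | some b => ((f q.1 x, (M.δ q.2 b o).1), (M.δ q.2 b o).2)
  acc := {q | q.1 ∈ A ∧ q.2 ∈ M.acc}

lemma transMachine_fold [Finite σ] (f : σ → α → σ) (g : σ → α → Option β) (s₀ : σ) (A : Set σ)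
    (M : RTMachine β) (w : List α) : ∀ (s : σ) (c : M.Q × ∀ i, Tape (M.Γ i)),
      w.foldl (transMachine f g s₀ A M).step ((s, c.1), c.2) =
        ((w.foldl f s, ((oout f g s w).foldl M.step c).1),
          ((oout f g s w).foldl M.step c).2) := by
  induction w with
  | nil => intro s c; rfl
  | cons x w ih =>
    intro s c
    rw [List.foldl_cons, List.foldl_cons]
    have hstep : (transMachine f g s₀ A M).step ((s, c.1), c.2) x =
        ((f s x, ((g s x).toList.foldl M.step c).1), ((g s x).toList.foldl M.step c).2) := by
      rcases hg : g s x with _ | b
      · have h1 : (transMachine f g s₀ A M).δ (s, c.1) x (fun i => c.2 i 0) =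
            ((f s x, c.1), fun i => (c.2 i 0, Dir.stay)) := by
          simp only [transMachine, hg]
        refine Prod.ext ?_ ?_
        · show ((transMachine f g s₀ A M).δ (s, c.1) x (fun i => c.2 i 0)).1 = _
          rw [h1]
          rfl
        · funext i
          show ((c.2 i).write (((transMachine f g s₀ A M).δ (s, c.1) x
            (fun i => c.2 i 0)).2 i).1).move (((transMachine f g s₀ A M).δ (s, c.1) x
            (fun i => c.2 i 0)).2 i).2 = _
          rw [h1]
          show ((c.2 i).write (c.2 i 0)).move Dir.stay = _
          rw [Tape.write_self]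
          rfl
      · have h1 : (transMachine f g s₀ A M).δ (s, c.1) x (fun i => c.2 i 0) =
            ((f s x, (M.δ c.1 b (fun i => c.2 i 0)).1), (M.δ c.1 b (fun i => c.2 i 0)).2) := by
          simp only [transMachine, hg]
        refine Prod.ext ?_ ?_
        · show ((transMachine f g s₀ A M).δ (s, c.1) x (fun i => c.2 i 0)).1 = _
          rw [h1]
          rfl
        · funext i
          show ((c.2 i).write (((transMachine f g s₀ A M).δ (s, c.1) x
            (fun i => c.2 i 0)).2 i).1).move (((transMachine f g s₀ A M).δ (s, c.1) x
            (fun i => c.2 i 0)).2 i).2 = _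
          rw [h1]
          rfl
    rw [show oout f g s (x :: w) = (g s x).toList ++ oout f g (f s x) w from rfl,
      List.foldl_append, hstep]
    exact ih (f s x) ((g s x).toList.foldl M.step c)

/-- REALTIME is closed under inverse images of finite-state transducers with at most one output
letter per input letter, with a condition on the last state. -/
theorem REALTIME.trans [Finite σ] (f : σ → α → σ) (g : σ → α → Option β) (s₀ : σ) (A : Set σ)
    {P : Language β} (hP : REALTIME P) :
    REALTIME {w : List α | w.foldl f s₀ ∈ A ∧ oout f g s₀ w ∈ P} := by
  obtain ⟨M, rfl⟩ := hP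
  refine ⟨transMachine f g s₀ A M, ?_⟩
  ext w
  have h := transMachine_fold f g s₀ A M w s₀ (M.start, fun i _ => M.blank i)
  show (w.foldl (transMachine f g s₀ A M).step
    ((s₀, M.start), fun i _ => M.blank i)).1 ∈ (transMachine f g s₀ A M).acc ↔ _
  have h' : w.foldl (transMachine f g s₀ A M).step ((s₀, M.start), fun i _ => M.blank i) =
      ((w.foldl f s₀, ((oout f g s₀ w).foldl M.step (M.start, fun i _ => M.blank i)).1),
        ((oout f g s₀ w).foldl M.step (M.start, fun i _ => M.blank i)).2) := h
  rw [h']
  rfl

lemma REALTIME.congr {L L' : Language α} (h : ∀ w, w ∈ L ↔ w ∈ L') (hL : REALTIME L) :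
    REALTIME L' := by
  have e : L = L' := Set.ext h
  rwa [e] at hL

end trans

section append

variable {α : Type}

/-- buffers of length at most `n` -/
abbrev Buf (α : Type) (n : ℕ) : Type := {l : List α // l.length ≤ n}

lemma finite_buf [Finite α] (n : ℕ) : Finite (Buf α n) := by
  have h := List.finite_length_le α n
  exact h.to_subtype

/-- a letter enters the buffer -/
def bufF (n : ℕ) (s : Buf α n) (x : α) : Buf α n :=
  if h : (s.1 ++ [x]).length ≤ n then ⟨s.1 ++ [x], h⟩
  else ⟨(s.1 ++ [x]).tail, by
    have := s.2
    simp only [List.length_tail, List.length_append, List.length_singleton]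
    omega⟩

/-- a letter leaves the buffer -/
def bufG (n : ℕ) (s : Buf α n) (x : α) : Option α :=
  if (s.1 ++ [x]).length ≤ n then none else (s.1 ++ [x]).head?

lemma buf_spec (n : ℕ) (w : List α) : ∀ s : Buf α n,
    s.1 ++ w = oout (bufF n) (bufG n) s w ++ (w.foldl (bufF n) s).1 ∧
    ((w.foldl (bufF n) s).1.length = n ∨ (w.foldl (bufF n) s).1 = s.1 ++ w) := by
  induction w with
  | nil => intro s; simp [oout]
  | cons x w ih =>
    intro s
    rw [List.foldl_cons]
    by_cases h : (s.1 ++ [x]).length ≤ n
    · have e1 : bufF n s x = ⟨s.1 ++ [x], h⟩ := dif_pos h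
      have e2 : bufG n s x = none := if_pos h
      obtain ⟨h1, h2⟩ := ih (bufF n s x)
      rw [show oout (bufF n) (bufG n) s (x :: w) =
        (bufG n s x).toList ++ oout (bufF n) (bufG n) (bufF n s x) w from rfl, e2]
      rw [e1] at h1 h2 ⊢
      constructor
      · rw [Option.toList_none, List.nil_append, ← h1]
        simp
      · rcases h2 with h2 | h2
        · exact Or.inl h2
        · right
          rw [h2]
          simp
    · have e1 : (bufF n s x).1 = (s.1 ++ [x]).tail := by
        unfold bufF
        rw [dif_neg h]
      have e2 : bufG n s x = (s.1 ++ [x]).head? := if_neg h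
      obtain ⟨h1, h2⟩ := ih (bufF n s x)
      rw [show oout (bufF n) (bufG n) s (x :: w) =
        (bufG n s x).toList ++ oout (bufF n) (bufG n) (bufF n s x) w from rfl, e2]
      have e3 : s.1 ++ x :: w = (s.1 ++ [x]).head?.toList ++ ((s.1 ++ [x]).tail ++ w) := by
        rcases s.1 with _ | ⟨y, l⟩ <;> simp
      constructor
      · rw [e3, ← e1, h1, List.append_assoc]
      · rcases h2 with h2 | h2
        · exact Or.inl h2
        · left
          rw [e1] at h2
          have h3 : ((s.1 ++ [x]).tail).length = n := by
            have := s.2
            simp only [List.length_tail, List.length_append, List.length_singleton] at h ⊢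
            omega
          have h4 := (w.foldl (bufF n) (bufF n s x)).2
          have h5 := congrArg List.length h2
          rw [List.length_append, h3] at h5
          omega

/-- Words of a real-time language followed by a fixed word. -/
theorem REALTIME.append_const [Finite α] {P : Language α} (hP : REALTIME P) (E : List α) :
    REALTIME {w : List α | ∃ p ∈ P, w = p ++ E} := by
  have := finite_buf (α := α) E.length
  have h := REALTIME.trans (bufF E.length) (bufG E.length) (⟨[], by simp⟩ : Buf α E.length)
    {s | s.1 = E} hP
  refine REALTIME.congr (fun w => ?_) h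
  obtain ⟨h1, h2⟩ := buf_spec E.length w ⟨[], by simp⟩
  constructor
  · rintro ⟨h3, h4⟩
    have h5 : (w.foldl (bufF E.length) ⟨[], by simp⟩).1 = E := h3
    rw [h5] at h1
    exact ⟨_, h4, h1⟩
  · rintro ⟨p, hp, rfl⟩
    have h6 : ((p ++ E).foldl (bufF E.length) ⟨[], by simp⟩).1.length = E.length := by
      rcases h2 with h2 | h2
      · exact h2
      · have h7 := ((p ++ E).foldl (bufF E.length) ⟨[], by simp⟩).2
        rw [h2] at h7 ⊢
        simp only [List.nil_append, List.length_append] at h7 ⊢
        omega
    have h1' : p ++ E = oout (bufF E.length) (bufG E.length) ⟨[], by simp⟩ (p ++ E) ++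
        ((p ++ E).foldl (bufF E.length) ⟨[], by simp⟩).1 := h1
    have h8 := List.append_inj' h1' h6.symm
    refine ⟨h8.2.symm, ?_⟩
    rw [← h8.1]
    exact hp

end append

section block

variable {α γ : Type}

/-- block decoding: next state (`none` is the dead state) -/
noncomputable def blkF (K : ℕ) (code : γ → List α) (s : Option (Buf α K)) (x : α) :
    Option (Buf α K) := by
  classical
  exact match s with
  | none => none
  | some l =>
    if h : (l.1 ++ [x]).length < K then some ⟨l.1 ++ [x], h.le⟩
    else if ∃ b, code b = l.1 ++ [x] then some ⟨[], by simp⟩ else none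

/-- block decoding: output -/
noncomputable def blkG (K : ℕ) (code : γ → List α) (s : Option (Buf α K)) (x : α) :
    Option γ := by
  classical
  exact match s with
  | none => none
  | some l =>
    if (l.1 ++ [x]).length < K then none
    else if h : ∃ b, code b = l.1 ++ [x] then some h.choose else none

lemma blkF_none (K : ℕ) (code : γ → List α) (w : List α) :
    w.foldl (blkF K code) none = none := by
  induction w with
  | nil => rfl
  | cons x w ih => exact ih

lemma blk_spec1 (K : ℕ) (hK : 1 ≤ K) (code : γ → List α) (hlen : ∀ b, (code b).length = K)
    (hinj : Function.Injective code) (w : List α) : ∀ (l : Buf α K) (z : List γ),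
      l.1.length < K → l.1 ++ w = z.flatMap code →
      w.foldl (blkF K code) (some l) = some ⟨[], by simp⟩ ∧
        oout (blkF K code) (blkG K code) (some l) w = z := by
  induction w with
  | nil =>
    intro l z hl h
    rcases z with _ | ⟨b, z⟩
    · rw [List.append_nil, List.flatMap_nil] at h
      refine ⟨?_, rfl⟩
      show some l = _
      congr 1
      exact Subtype.ext h
    · exfalso
      have h1 := congrArg List.length h
      rw [List.append_nil, List.flatMap_cons, List.length_append, hlen] at h1
      omega
  | cons x w ih =>
    intro l z hl h
    rw [List.foldl_cons]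
    by_cases hx : (l.1 ++ [x]).length < K
    · have e1 : blkF K code (some l) x = some ⟨l.1 ++ [x], hx.le⟩ := dif_pos hx
      have e2 : blkG K code (some l) x = none := if_pos hx
      rw [show oout (blkF K code) (blkG K code) (some l) (x :: w) =
        (blkG K code (some l) x).toList ++ oout (blkF K code) (blkG K code)
          (blkF K code (some l) x) w from rfl, e1, e2]
      have := ih ⟨l.1 ++ [x], hx.le⟩ z hx (by rw [← h]; simp)
      exact this
    · rcases z with _ | ⟨b, z⟩
      · simp at h
      · have hxl : (l.1 ++ [x]).length = K := by
          simp only [List.length_append, List.length_singleton] at hx ⊢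
          omega
        have h1 : (l.1 ++ [x]) ++ w = code b ++ z.flatMap code := by
          rw [← List.flatMap_cons, ← h]
          simp
        obtain ⟨h2, h3⟩ := List.append_inj h1 (by rw [hxl, hlen])
        have hex : ∃ b, code b = l.1 ++ [x] := ⟨b, h2.symm⟩
        have e1 : blkF K code (some l) x = some ⟨[], by simp⟩ := by
          show dite _ _ _ = _
          rw [dif_neg hx]
          exact if_pos hex
        have e2 : blkG K code (some l) x = some b := by
          have e3 : blkG K code (some l) x = some hex.choose := by
            show ite _ _ _ = _
            rw [if_neg hx]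
            exact dif_pos hex
          rw [e3]
          congr 1
          exact hinj (hex.choose_spec.trans h2)
        rw [show oout (blkF K code) (blkG K code) (some l) (x :: w) =
          (blkG K code (some l) x).toList ++ oout (blkF K code) (blkG K code)
            (blkF K code (some l) x) w from rfl, e1, e2]
        obtain ⟨h4, h5⟩ := ih ⟨[], by simp⟩ z (by simp; omega) (by simpa using h3)
        exact ⟨h4, by rw [h5]; rfl⟩

lemma blk_spec2 (K : ℕ) (code : γ → List α) (w : List α) : ∀ (l : Buf α K),
      w.foldl (blkF K code) (some l) = some ⟨[], by simp⟩ →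
      l.1 ++ w = (oout (blkF K code) (blkG K code) (some l) w).flatMap code := by
  induction w with
  | nil =>
    intro l h
    have h1 : l.1 = [] := by
      have h2 : some l = some ⟨[], by simp⟩ := h
      rw [Option.some.inj h2]
    rw [h1]
    rfl
  | cons x w ih =>
    intro l h
    rw [List.foldl_cons] at h
    by_cases hx : (l.1 ++ [x]).length < K
    · have e1 : blkF K code (some l) x = some ⟨l.1 ++ [x], hx.le⟩ := dif_pos hx
      have e2 : blkG K code (some l) x = none := if_pos hx
      rw [show oout (blkF K code) (blkG K code) (some l) (x :: w) =
        (blkG K code (some l) x).toList ++ oout (blkF K code) (blkG K code)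
          (blkF K code (some l) x) w from rfl, e1, e2]
      rw [e1] at h
      have h2 := ih ⟨l.1 ++ [x], hx.le⟩ h
      rw [Option.toList_none, List.nil_append, ← h2]
      simp
    · by_cases hex : ∃ b, code b = l.1 ++ [x]
      · have e1 : blkF K code (some l) x = some ⟨[], by simp⟩ := by
          show dite _ _ _ = _
          rw [dif_neg hx]
          exact if_pos hex
        have e2 : blkG K code (some l) x = some hex.choose := by
          show ite _ _ _ = _
          rw [if_neg hx]
          exact dif_pos hex
        rw [show oout (blkF K code) (blkG K code) (some l) (x :: w) =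
          (blkG K code (some l) x).toList ++ oout (blkF K code) (blkG K code)
            (blkF K code (some l) x) w from rfl, e1, e2]
        rw [e1] at h
        have h2 := ih ⟨[], by simp⟩ h
        rw [List.nil_append] at h2
        rw [Option.toList_some, List.singleton_append, List.flatMap_cons, hex.choose_spec, ← h2]
        simp
      · have e1 : blkF K code (some l) x = none := by
          show dite _ _ _ = _
          rw [dif_neg hx]
          exact if_neg hex
        rw [e1, blkF_none] at h
        exact absurd h (by simp)

/-- The image of a real-time language under a block code is a real-time language. -/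
theorem REALTIME.block [Finite α] (K : ℕ) (hK : 1 ≤ K) (code : γ → List α)
    (hlen : ∀ b, (code b).length = K) (hinj : Function.Injective code)
    {P : Language γ} (hP : REALTIME P) :
    REALTIME {w : List α | ∃ z ∈ P, w = z.flatMap code} := by
  have := finite_buf (α := α) K
  have h := REALTIME.trans (blkF K code) (blkG K code) (some ⟨[], by simp⟩)
    {s | s = some ⟨[], by simp⟩} hP
  refine REALTIME.congr (fun w => ?_) h
  constructor
  · rintro ⟨h1, h2⟩
    have h3 := blk_spec2 K code w ⟨[], by simp⟩ h1
    exact ⟨_, h2, h3⟩
  · rintro ⟨z, hz, rfl⟩
    obtain ⟨h1, h2⟩ := blk_spec1 K hK code hlen hinj (z.flatMap code) ⟨[], by simp⟩ z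
      (by simp; omega) rfl
    refine ⟨h1, ?_⟩
    rw [h2]
    exact hz

end block

end Pool.Agent.Helper95.LT
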