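import Pool.Agent.Helper95.LT.Defs
import Pool.Agent.Helper95.LT.RTClosure
import Pool.Agent.Helper86.TMConcat

/-!
# Multiplication by a real-time language with bounded chains of prefixes

If every word has at most `k` prefixes in the real-time language `R`, then `R L` is in LINTIME
for all `L` in LINTIME.  Induction on `k`: the first prefix in `R` is found in real time.
-/

namespace Pool.Agent.Helper95.LT

open Pool.Agent.Helper86 Pool.Agent.Helper86.Prog
open scoped Computability

section chains

variable {α : Type}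

/-- Every word has at most `k` prefixes in `R`. -/
def BddChains (R : Language α) (k : ℕ) : Prop :=
  ∀ (w : List α) (S : Finset (List α)), (∀ u ∈ S, u <+: w ∧ u ∈ R) → S.card ≤ k

lemma FinPrefixFree.bdd {R : Language α} (h : FinPrefixFree R) : ∃ k, BddChains R k := by
  classical
  obtain ⟨n, C, hC, hR⟩ := h
  refine ⟨n, fun w S hS => ?_⟩
  have h1 : ∀ u : {u // u ∈ S}, ∃ i, u.1 ∈ C i := fun u => (hR u.1).1 (hS u.1 u.2).2
  choose f hf using h1
  have hinj : Function.Injective f := by
    intro u v huv
    have h2 := hf u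
    have h3 := hf v
    rw [← huv] at h3
    apply Subtype.ext
    rcases List.prefix_or_prefix_of_prefix (hS u.1 u.2).1 (hS v.1 v.2).1 with h4 | h4
    · exact hC _ _ h2 _ h3 h4
    · exact (hC _ _ h3 _ h2 h4).symm
  have h4 := Fintype.card_le_of_injective f hinj
  simpa using h4

/-- the words of `R` with a proper prefix in `R` -/
def restL (R : Language α) : Language α := {u | u ∈ R ∧ ∃ u', u' <+: u ∧ u' ≠ u ∧ u' ∈ R}

lemma mem_min_or_rest {R : Language α} (u : List α) :
    u ∈ R ↔ (u ∈ minL R ∨ u ∈ restL R) := by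
  constructor
  · intro h
    by_cases h1 : ∃ u', u' <+: u ∧ u' ≠ u ∧ u' ∈ R
    · exact Or.inr ⟨h, h1⟩
    · left
      refine ⟨h, fun u' h2 h3 h4 => h1 ⟨u', h2, h3, h4⟩⟩
  · rintro (h | h)
    · exact h.1
    · exact h.1

lemma minL_prefixFree (R : Language α) : PrefixFree (minL R) := by
  intro u hu v hv huv
  by_contra h
  exact hv.2 u huv h hu.1

lemma BddChains.rest {R : Language α} {k : ℕ} (h : BddChains R (k + 1)) :
    BddChains (restL R) k := by
  classical
  intro w S hS
  rcases S.eq_empty_or_nonempty with h0 | h0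
  · rw [h0]; simp
  · obtain ⟨u₀, hu₀, hmin⟩ := S.exists_min_image List.length h0
    obtain ⟨h1, h2, u', h3, h4, h5⟩ := hS u₀ hu₀
    have h6 : u'.length < u₀.length := by
      rcases Nat.lt_or_ge u'.length u₀.length with h7 | h7
      · exact h7
      · exact absurd (h3.eq_of_length (le_antisymm h3.length_le h7)) h4
    have h7 : u' ∉ S := fun h8 => by
      have := hmin u' h8
      omega
    have h8 := h w (insert u' S) (by
      intro u hu
      rcases Finset.mem_insert.1 hu with rfl | hu
      · exact ⟨h3.trans h1, h5⟩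
      · exact ⟨(hS u hu).1, (hS u hu).2.1⟩)
    rw [Finset.card_insert_of_notMem h7] at h8
    omega

lemma BddChains.empty {R : Language α} (h : BddChains R 0) (u : List α) : u ∉ R := by
  intro hu
  have := h u {u} (by
    intro v hv
    rw [Finset.mem_singleton] at hv
    subst hv
    exact ⟨List.prefix_rfl, hu⟩)
  simp at this

lemma BddChains.fin {k : ℕ} : ∀ {R : Language α}, BddChains R k → FinPrefixFree R := by
  induction k with
  | zero =>
    intro R h
    refine ⟨0, fun i => i.elim0, fun i => i.elim0, fun w => ⟨fun hw => absurd hw (h.empty w), ?_⟩⟩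
    rintro ⟨i, _⟩
    exact i.elim0
  | succ k ih =>
    intro R h
    obtain ⟨n, C, hC, hR⟩ := ih h.rest
    refine ⟨n + 1, Fin.cons (minL R) C, fun i => ?_, fun w => ?_⟩
    · refine Fin.cases ?_ (fun j => ?_) i
      · exact minL_prefixFree R
      · exact hC j
    · rw [mem_min_or_rest, hR]
      constructor
      · rintro (h1 | ⟨j, hj⟩)
        · exact ⟨0, h1⟩
        · exact ⟨j.succ, hj⟩
      · rintro ⟨i, hi⟩
        revert hi
        refine Fin.cases ?_ (fun j => ?_) i
        · intro hi
          exact Or.inl hi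
        · intro hi
          exact Or.inr ⟨j, hi⟩

end chains

section machine

variable {α : Type} (M : RTMachine α)

/-- the configuration is accepting after reading `u` -/
def Acc (c : M.Q × ∀ i, Tape (M.Γ i)) (u : List α) : Prop := (u.foldl M.step c).1 ∈ M.acc

open Classical in
/-- `M` with a flag telling whether an earlier position was accepting -/
noncomputable def flagM (A : Set (M.Q × Bool)) : RTMachine α where
  ι := M.ι
  finι := M.finι
  Γ := M.Γ
  finΓ := M.finΓ
  blank := M.blank
  Q := M.Q × Bool
  finQ := by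
    have := M.finQ
    infer_instance
  start := (M.start, false)
  δ := fun q x o => (((M.δ q.1 x o).1, q.2 || decide (q.1 ∈ M.acc)), (M.δ q.1 x o).2)
  acc := A

open Classical in
lemma flagM_step (A : Set (M.Q × Bool)) (c : M.Q × ∀ i, Tape (M.Γ i)) (b : Bool) (x : α) :
    (flagM M A).step ((c.1, b), c.2) x =
      (((M.step c x).1, b || decide (c.1 ∈ M.acc)), (M.step c x).2) := rfl

open Classical in
lemma flagM_fold (A : Set (M.Q × Bool)) (u : List α) : ∀ (c : M.Q × ∀ i, Tape (M.Γ i)) (b : Bool),
    u.foldl (flagM M A).step ((c.1, b), c.2) =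
      (((u.foldl M.step c).1, b || decide (∃ u', u' <+: u ∧ u' ≠ u ∧ Acc M c u')),
        (u.foldl M.step c).2) := by
  induction u with
  | nil =>
    intro c b
    have h : ¬ ∃ u' : List α, u' <+: [] ∧ u' ≠ [] ∧ Acc M c u' := by
      rintro ⟨u', h1, h2, _⟩
      exact h2 (List.prefix_nil.1 h1)
    rw [decide_eq_false h, Bool.or_false]
    rfl
  | cons x u ih =>
    intro c b
    rw [List.foldl_cons, List.foldl_cons, flagM_step]
    have h1 := ih (M.step c x) (b || decide (c.1 ∈ M.acc))
    refine Eq.trans h1 ?_
    have h2 : (b || decide (c.1 ∈ M.acc) ||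
        decide (∃ u', u' <+: u ∧ u' ≠ u ∧ Acc M (M.step c x) u')) =
        (b || decide (∃ u', u' <+: x :: u ∧ u' ≠ x :: u ∧ Acc M c u')) := by
      rw [Bool.or_assoc]
      congr 1
      rw [← Bool.decide_or]
      congr 1
      apply propext
      constructor
      · rintro (h | ⟨u', h3, h4, h5⟩)
        · exact ⟨[], List.nil_prefix, by simp, h⟩
        · exact ⟨x :: u', List.cons_prefix_cons.2 ⟨rfl, h3⟩, by simpa using h4, h5⟩
      · rintro ⟨u', h3, h4, h5⟩
        rcases u' with _ | ⟨y, u'⟩
        · exact Or.inl h5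
        · right
          obtain ⟨rfl, h6⟩ := List.cons_prefix_cons.1 h3
          exact ⟨u', h6, by simpa using h4, h5⟩
    rw [h2]

/-- the language of the machine, by `Acc` -/
lemma mem_language (u : List α) : u ∈ M.language ↔ Acc M (rtinit M) u := Iff.rfl

lemma REALTIME.rest {R : Language α} (hR : REALTIME R) : REALTIME (restL R) := by
  classical
  obtain ⟨M, rfl⟩ := hR
  refine ⟨flagM M {q | q.1 ∈ M.acc ∧ q.2 = true}, ?_⟩
  ext u
  have h := flagM_fold M {q | q.1 ∈ M.acc ∧ q.2 = true} u (rtinit M) false
  show (u.foldl (flagM M {q | q.1 ∈ M.acc ∧ q.2 = true}).step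
    (((rtinit M).1, false), (rtinit M).2)).1 ∈ {q : M.Q × Bool | q.1 ∈ M.acc ∧ q.2 = true} ↔ _
  rw [h]
  show ((u.foldl M.step (rtinit M)).1 ∈ M.acc ∧ (false || decide (∃ u', u' <+: u ∧ u' ≠ u ∧
    Acc M (rtinit M) u')) = true) ↔ _
  rw [Bool.false_or, decide_eq_true_iff]
  exact Iff.rfl

open Classical in
/-- output: a mark at the first accepting position and the letters that follow -/
noncomputable def firstG (q : M.Q × Bool) (x : α) : List (Option α) :=
  if q.2 then [some x] else if q.1 ∈ M.acc then [none, some x] else []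

open Classical in
/-- output at the end -/
noncomputable def firstH (q : M.Q × Bool) : List (Option α) :=
  if q.2 then [] else if q.1 ∈ M.acc then [none] else []

lemma first_true (w : List α) : ∀ c : M.Q × ∀ i, Tape (M.Γ i),
    rtout (flagM M ∅) (firstG M) (firstH M) ((c.1, true), c.2) w = w.map some := by
  induction w with
  | nil => intro c; rfl
  | cons x w ih =>
    intro c
    show [some x] ++ rtout (flagM M ∅) (firstG M) (firstH M) _ w = _
    rw [flagM_step, Bool.true_or]
    have h := ih (M.step c x)
    rw [List.singleton_append, List.map_cons]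
    congr 1

lemma first_false (w : List α) : ∀ c : M.Q × ∀ i, Tape (M.Γ i),
    (rtout (flagM M ∅) (firstG M) (firstH M) ((c.1, false), c.2) w = [] ∧
      ∀ u, u <+: w → ¬ Acc M c u) ∨
    ∃ u v, w = u ++ v ∧ Acc M c u ∧ (∀ u', u' <+: u → u' ≠ u → ¬ Acc M c u') ∧
      rtout (flagM M ∅) (firstG M) (firstH M) ((c.1, false), c.2) w = none :: v.map some := by
  classical
  induction w with
  | nil =>
    intro c
    by_cases h : c.1 ∈ M.acc
    · right
      refine ⟨[], [], rfl, h, fun u' h1 h2 => absurd (List.prefix_nil.1 h1) h2, ?_⟩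
      show firstH M (c.1, false) = _
      simp [firstH, h]
    · left
      refine ⟨?_, fun u hu => ?_⟩
      · show firstH M (c.1, false) = _
        simp [firstH, h]
      · rw [List.prefix_nil.1 hu]
        exact h
  | cons x w ih =>
    intro c
    have h0 : rtout (flagM M ∅) (firstG M) (firstH M) ((c.1, false), c.2) (x :: w) =
        firstG M (c.1, false) x ++ rtout (flagM M ∅) (firstG M) (firstH M)
          (((M.step c x).1, false || decide (c.1 ∈ M.acc)), (M.step c x).2) w := rfl
    rw [h0]
    by_cases h : c.1 ∈ M.acc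
    · right
      refine ⟨[], x :: w, rfl, h, fun u' h1 h2 => absurd (List.prefix_nil.1 h1) h2, ?_⟩
      rw [decide_eq_true h, Bool.or_true, first_true]
      simp [firstG, h]
    · have h1 : firstG M (c.1, false) x = [] := by simp [firstG, h]
      rw [h1, decide_eq_false h, Bool.or_false, List.nil_append]
      rcases ih (M.step c x) with ⟨h2, h3⟩ | ⟨u, v, h2, h3, h4, h5⟩
      · left
        refine ⟨h2, fun u hu => ?_⟩
        rcases u with _ | ⟨y, u⟩
        · exact h
        · obtain ⟨rfl, h6⟩ := List.cons_prefix_cons.1 hu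
          exact h3 u h6
      · right
        refine ⟨x :: u, v, by rw [h2]; rfl, h3, fun u' h6 h7 => ?_, h5⟩
        rcases u' with _ | ⟨y, u'⟩
        · exact h
        · obtain ⟨rfl, h8⟩ := List.cons_prefix_cons.1 h6
          exact h4 u' h8 (by simpa using h7)

lemma del_map_some' (w : List α) : (w.map some).flatMap Option.toList = w := by
  induction w with
  | nil => rfl
  | cons b w ih =>
    show b :: (w.map some).flatMap Option.toList = _
    rw [ih]

/-- A nonempty word: real time. -/
lemma REALTIME_ne_nil : REALTIME {w : List α | w ≠ []} := by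
  have h := REALTIME_of_fold (α := α) (σ := Bool) false (fun _ _ => true) {true}
  refine REALTIME.congr (fun w => ?_) h
  have h1 : ∀ (w : List α), w.foldl (fun _ _ => true) true = true := by
    intro w
    induction w with
    | nil => rfl
    | cons x w ih => exact ih
  rcases w with _ | ⟨x, w⟩
  · constructor
    · intro h2
      exact absurd (Set.mem_singleton_iff.1 h2) (by simp)
    · intro h2
      exact absurd rfl h2
  · constructor
    · intro _
      exact List.cons_ne_nil x w
    · intro _
      exact Set.mem_singleton_iff.2 (h1 w)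

lemma LINTIME_empty [Finite α] : LINTIME ({_w | False} : Language α) := by
  have h := REALTIME_of_fold (α := α) (σ := Bool) false (fun _ _ => true) ∅
  refine LINTIME.congr (fun w => ?_) h.lintime
  exact Iff.rfl

lemma LINTIME.union [Finite α] {L₁ L₂ : Language α} (h₁ : LINTIME L₁) (h₂ : LINTIME L₂) :
    LINTIME {w | w ∈ L₁ ∨ w ∈ L₂} :=
  LINTIME.bool (fun a b => a || b) h₁ h₂ (by
    intro w b₁ b₂ h1 h2
    show (b₁ || b₂) = true ↔ (w ∈ L₁ ∨ w ∈ L₂)
    rw [Bool.or_eq_true, h1, h2])

lemma min_mul [Finite α] {R : Language α} (hR : REALTIME R) {L : Language α} (hL : LINTIME L) :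
    LINTIME (minL R * L) := by
  classical
  obtain ⟨M, rfl⟩ := hR
  have a1 : LINTIME {z : List (Option α) | z ≠ []} := REALTIME_ne_nil.lintime
  have a2 : LINTIME {z : List (Option α) | z.flatMap Option.toList ∈ L} :=
    LINTIME.preimage (LinFun.flatMap Option.toList) hL
  have a3 := LINTIME.preimage (LinFun.rt (flagM M ∅) (firstG M) (firstH M)) (a1.inter a2)
  refine LINTIME.congr (fun w => ?_) a3
  show (rtout (flagM M ∅) (firstG M) (firstH M) (((rtinit M).1, false), (rtinit M).2) w ≠ [] ∧
    (rtout (flagM M ∅) (firstG M) (firstH M) (((rtinit M).1, false), (rtinit M).2) w).flatMap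
      Option.toList ∈ L) ↔ _
  rw [Language.mem_mul]
  rcases first_false M w (rtinit M) with ⟨h1, h2⟩ | ⟨u, v, h1, h2, h3, h4⟩
  · constructor
    · rintro ⟨h3, _⟩
      exact absurd h1 h3
    · rintro ⟨u, hu, v, _, huv⟩
      exact absurd hu.1 (h2 u ⟨v, huv⟩)
  · rw [h4]
    have e : (none :: v.map some).flatMap Option.toList = v := by
      show (v.map some).flatMap Option.toList = v
      exact del_map_some' v
    rw [e]
    constructor
    · rintro ⟨_, h5⟩
      exact ⟨u, ⟨h2, fun u' h6 h7 h8 => h3 u' h6 h7 h8⟩, v, h5, h1.symm⟩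
    · rintro ⟨u₁, hu₁, v₁, hv₁, huv⟩
      refine ⟨by simp, ?_⟩
      have h5 : u₁ = u := by
        have h6 : u₁ <+: w := ⟨v₁, huv⟩
        have h7 : u <+: w := ⟨v, h1.symm⟩
        rcases List.prefix_or_prefix_of_prefix h6 h7 with h8 | h8
        · by_contra h9
          exact h3 u₁ h8 h9 hu₁.1
        · by_contra h9
          exact hu₁.2 u h8 (fun h => h9 h.symm) h2
      subst h5
      rw [h1] at huv
      rw [← List.append_cancel_left huv]
      exact hv₁

/-- Multiplication by a real-time language with bounded chains of prefixes preserves LINTIME. -/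
theorem easy [Finite α] (k : ℕ) : ∀ (R : Language α), REALTIME R → BddChains R k →
    ∀ L : Language α, LINTIME L → LINTIME (R * L) := by
  induction k with
  | zero =>
    intro R _ h L _
    refine LINTIME.congr (fun w => ?_) LINTIME_empty
    constructor
    · intro h1; exact h1.elim
    · intro h1
      rw [Language.mem_mul] at h1
      obtain ⟨u, hu, _⟩ := h1
      exact absurd hu (h.empty u)
  | succ k ih =>
    intro R hR h L hL
    have h1 := min_mul hR hL
    have h2 := ih (restL R) (REALTIME.rest hR) h.rest L hL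
    refine LINTIME.congr (fun w => ?_) (LINTIME.union h1 h2)
    show (w ∈ minL R * L ∨ w ∈ restL R * L) ↔ w ∈ R * L
    rw [Language.mem_mul, Language.mem_mul, Language.mem_mul]
    constructor
    · rintro (⟨u, hu, v, hv, huv⟩ | ⟨u, hu, v, hv, huv⟩)
      · exact ⟨u, hu.1, v, hv, huv⟩
      · exact ⟨u, hu.1, v, hv, huv⟩
    · rintro ⟨u, hu, v, hv, huv⟩
      rcases (mem_min_or_rest u).1 hu with h3 | h3
      · exact Or.inl ⟨u, h3, v, hv, huv⟩
      · exact Or.inr ⟨u, h3, v, hv, huv⟩

end machine

end Pool.Agent.Helper95.LT
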