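import Pool.Agent.Helper95.LT.RTClosure
import Pool.Agent.Helper86.TMConcat

/-!
# Hardness of multiplication by a language that contains `x y^t` for all `t`

The word `w = a^n v` (`v` does not begin with `a`) is sent to
`x code(a)^n code($) code(v) c^M d r`, where `code` is a block code with `code(a)` a power of `y`.
-/

namespace Pool.Agent.Helper95.LT

open Pool.Agent.Helper86 Pool.Agent.Helper86.Prog
open scoped Computability

section ins

variable {β : Type} [DecidableEq β]

/-- Insert the symbol `none` after the first block of letters `a`. -/
def insD (a : β) : List β → List (Option β)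
  | [] => [none]
  | b :: w => if b = a then some b :: insD a w else none :: (b :: w).map some

lemma insD_cons_eq (a : β) (w : List β) : insD a (a :: w) = some a :: insD a w := by
  simp [insD]

lemma insD_cons_ne {a b : β} (h : b ≠ a) (w : List β) :
    insD a (b :: w) = none :: (b :: w).map some := by
  rw [insD, if_neg h]

lemma tout_insD (a : β) (w : List β) :
    tout (fun (s : Bool) (b : β) => s || decide (b ≠ a))
      (fun (s : Bool) (b : β) => if s then [some b] else if b = a then [some b] else [none, some b])
      (fun (s : Bool) => if s then ([] : List (Option β)) else [none]) true w = w.map some := by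
  induction w with
  | nil => rfl
  | cons b w ih =>
    rw [tout, Bool.true_or, ih]
    rfl

lemma tout_insD' (a : β) (w : List β) :
    tout (fun (s : Bool) (b : β) => s || decide (b ≠ a))
      (fun (s : Bool) (b : β) => if s then [some b] else if b = a then [some b] else [none, some b])
      (fun (s : Bool) => if s then ([] : List (Option β)) else [none]) false w = insD a w := by
  induction w with
  | nil => rfl
  | cons b w ih =>
    rw [tout, Bool.false_or]
    by_cases h : b = a
    · subst h
      rw [insD_cons_eq]
      have e : (decide (b ≠ b)) = false := by simp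
      rw [e, ih]
      simp
    · rw [insD_cons_ne h]
      have e : (decide (b ≠ a)) = true := by simpa using h
      rw [e, tout_insD]
      simp [h]

lemma LinFun.insD [Finite β] (a : β) : LinFun (insD a) := by
  have h := LinFun.fst (α := β) (β := Option β) (σ := Bool)
    (fun (s : Bool) (b : β) => s || decide (b ≠ a))
    (fun (s : Bool) (b : β) => if s then [some b] else if b = a then [some b] else [none, some b])
    (fun (s : Bool) => if s then ([] : List (Option β)) else [none]) false
  have e : (fun w => tout (fun (s : Bool) (b : β) => s || decide (b ≠ a))
      (fun (s : Bool) (b : β) => if s then [some b] else if b = a then [some b] else [none, some b])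
      (fun (s : Bool) => if s then ([] : List (Option β)) else [none]) false w) =
      Pool.Agent.Helper95.LT.insD a := funext (tout_insD' a)
  rwa [e] at h

/-- Delete the symbols `none`. -/
def del {β : Type} (z : List (Option β)) : List β := z.flatMap Option.toList

lemma del_map_some {β : Type} (w : List β) : del (w.map some) = w := by
  induction w with
  | nil => rfl
  | cons b w ih =>
    show b :: del (w.map some) = _
    rw [ih]

lemma del_insD (a : β) (w : List β) : del (insD a w) = w := by
  induction w with
  | nil => rfl
  | cons b w ih =>
    by_cases h : b = a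
    · subst h
      rw [insD_cons_eq]
      show b :: del (insD b w) = _
      rw [ih]
    · rw [insD_cons_ne h]
      exact del_map_some (b :: w)

lemma none_mem_insD (a : β) (w : List β) : none ∈ insD a w := by
  induction w with
  | nil => simp [insD]
  | cons b w ih =>
    by_cases h : b = a
    · subst h
      rw [insD_cons_eq]
      exact List.mem_cons_of_mem _ ih
    · rw [insD_cons_ne h]
      exact List.mem_cons_self

lemma insD_replicate (a : β) (i : ℕ) (p : List β) :
    insD a (List.replicate i a ++ p) = List.replicate i (some a) ++ insD a p := by
  induction i with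
  | zero => rfl
  | succ i ih =>
    rw [List.replicate_succ, List.cons_append, insD_cons_eq, ih]
    rfl

lemma suffix_insD (a : β) (w : List β) : ∀ z : List (Option β), z <:+ insD a w → none ∈ z →
    ∃ (i : ℕ) (p : List β), w = List.replicate i a ++ p ∧ del z = p := by
  induction w with
  | nil =>
    intro z hz hn
    refine ⟨0, [], rfl, ?_⟩
    have h1 : z <:+ [none] := hz
    rcases List.suffix_cons_iff.1 h1 with h2 | h2
    · rw [h2]; rfl
    · rw [List.suffix_nil] at h2
      rw [h2] at hn
      simp at hn
  | cons b w ih =>
    intro z hz hn
    by_cases h : b = a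
    · subst h
      rw [insD_cons_eq] at hz
      rcases List.suffix_cons_iff.1 hz with h2 | h2
      · refine ⟨0, b :: w, rfl, ?_⟩
        rw [h2, ← insD_cons_eq, del_insD]
      · obtain ⟨i, p, h3, h4⟩ := ih z h2 hn
        exact ⟨i + 1, p, by rw [h3, List.replicate_succ, List.cons_append], h4⟩
    · rw [insD_cons_ne h] at hz
      rcases List.suffix_cons_iff.1 hz with h2 | h2
      · refine ⟨0, b :: w, rfl, ?_⟩
        rw [h2]
        exact del_map_some (b :: w)
      · exfalso
        have h3 := h2.subset hn
        rw [List.mem_map] at h3
        obtain ⟨y, _, h4⟩ := h3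
        exact absurd h4 (by simp)

end ins

/-- The words with a symbol `none` which without these symbols belong to `P`. -/
def withNone {β : Type} (P : Language β) : Language (Option β) :=
  {z | none ∈ z ∧ del z ∈ P}

lemma withNone_REALTIME {β : Type} {P : Language β} (hP : REALTIME P) :
    REALTIME (withNone P) := by
  have h := REALTIME.trans (α := Option β) (σ := Bool) (fun s z => s || z.isNone)
    (fun _ z => z) false {true} hP
  refine REALTIME.congr (fun w => ?_) h
  have h1 : ∀ (w : List (Option β)) (s : Bool),
      w.foldl (fun s z => s || z.isNone) s = true ↔ (s = true ∨ none ∈ w) := by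
    intro w
    induction w with
    | nil => intro s; simp
    | cons b w ih =>
      intro s
      rw [List.foldl_cons, ih]
      rcases b with _ | b <;> simp
  have h2 : ∀ (w : List (Option β)) (s : Bool),
      oout (fun (s : Bool) (z : Option β) => s || z.isNone) (fun _ z => z) s w = del w := by
    intro w
    induction w with
    | nil => intro s; rfl
    | cons b w ih =>
      intro s
      rw [oout, ih]
      rfl
  show (w.foldl (fun s z => s || z.isNone) false ∈ ({true} : Set Bool) ∧ _) ↔ _
  rw [Set.mem_singleton_iff, h1, h2]
  simp only [Bool.false_eq_true, false_or]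
  rfl

section blocks

variable {α γ : Type} {K : ℕ} {code : γ → List α}

lemma blocks_length (hlen : ∀ b, (code b).length = K) (z : List γ) :
    (z.flatMap code).length = K * z.length := by
  induction z with
  | nil => simp
  | cons b z ih =>
    rw [List.flatMap_cons, List.length_append, ih, hlen, List.length_cons]
    ring

lemma blocks_inj (hK : 1 ≤ K) (hlen : ∀ b, (code b).length = K) (hinj : Function.Injective code)
    (z : List γ) : ∀ z' : List γ, z.flatMap code = z'.flatMap code → z = z' := by
  induction z with
  | nil =>
    intro z' h
    rcases z' with _ | ⟨b, z'⟩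
    · rfl
    · exfalso
      have h1 := congrArg List.length h
      rw [blocks_length hlen, blocks_length hlen, List.length_nil, List.length_cons, mul_zero] at h1
      have : 0 < K * (z'.length + 1) := Nat.mul_pos hK (Nat.succ_pos _)
      omega
  | cons b z ih =>
    intro z' h
    rcases z' with _ | ⟨b', z'⟩
    · exfalso
      have h1 := congrArg List.length h
      rw [blocks_length hlen, blocks_length hlen, List.length_nil, List.length_cons, mul_zero] at h1
      have : 0 < K * (z.length + 1) := Nat.mul_pos hK (Nat.succ_pos _)
      omega
    · rw [List.flatMap_cons, List.flatMap_cons] at h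
      obtain ⟨h1, h2⟩ := List.append_inj h (by rw [hlen, hlen])
      rw [hinj h1, ih z' h2]

/-- A suffix made of blocks consists of the last blocks. -/
lemma blocks_suffix (hK : 1 ≤ K) (hlen : ∀ b, (code b).length = K)
    (hinj : Function.Injective code) {x u : List α} (hx : x.length < K) {z z' : List γ}
    (h : x ++ z'.flatMap code = u ++ z.flatMap code) : z <:+ z' := by
  have h1 := congrArg List.length h
  rw [List.length_append, List.length_append, blocks_length hlen, blocks_length hlen] at h1
  have h2 : z.length ≤ z'.length := by
    by_contra hlt
    push Not at hlt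
    have h3 : K * (z'.length + 1) ≤ K * z.length := Nat.mul_le_mul_left K hlt
    rw [mul_add, mul_one] at h3
    omega
  have h3 : (z'.drop (z'.length - z.length)).length = z.length := by
    rw [List.length_drop]
    omega
  have h4 : z'.flatMap code = (z'.take (z'.length - z.length)).flatMap code ++
      (z'.drop (z'.length - z.length)).flatMap code := by
    rw [← List.flatMap_append, List.take_append_drop]
  rw [h4, ← List.append_assoc] at h
  obtain ⟨_, h5⟩ := List.append_inj' h (by rw [blocks_length hlen, blocks_length hlen, h3])
  have h6 := blocks_inj hK hlen hinj _ _ h5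
  rw [← h6]
  exact List.drop_suffix _ _

lemma blocks_get (hlen : ∀ b, (code b).length = K) {l₀ : α}
    (hhead : ∀ b, (code b).head? = some l₀) (hK : 1 ≤ K) (z : List γ) : ∀ t < z.length,
      (z.flatMap code)[K * t]? = some l₀ := by
  induction z with
  | nil => intro t ht; simp at ht
  | cons b z ih =>
    intro t ht
    rw [List.flatMap_cons]
    rcases t with _ | t
    · rw [mul_zero, List.getElem?_append_left (by rw [hlen]; omega), ← List.head?_eq_getElem?,
        hhead]
    · rw [List.getElem?_append_right (by rw [hlen, mul_add, mul_one]; omega), hlen]
      have e : K * (t + 1) - K = K * t := by rw [mul_add, mul_one, Nat.add_sub_cancel]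
      rw [e]
      exact ih t (by simpa using ht)

/-- No long run of `c`. -/
lemma no_run (hlen : ∀ b, (code b).length = K) {l₀ c : α} (hc : c ≠ l₀)
    (hhead : ∀ b, (code b).head? = some l₀) (hK : 1 ≤ K) (x : List α) (z : List γ) (M : ℕ)
    (hM : x.length + K ≤ M) (p q : List α) :
    x ++ z.flatMap code ≠ p ++ List.replicate M c ++ q := by
  intro h
  have hl := congrArg List.length h
  rw [List.length_append, blocks_length hlen, List.length_append, List.length_append,
    List.length_replicate] at hl
  set t := (p.length - x.length + K - 1) / K with ht
  have h1 : K * t ≤ p.length - x.length + K - 1 := Nat.mul_div_le _ _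
  have h2 : p.length - x.length + K - 1 < K * t + K := by
    have := Nat.lt_mul_div_succ (p.length - x.length + K - 1) (show 0 < K by omega)
    rw [mul_add, mul_one] at this
    exact this
  have h3 : t < z.length := by
    by_contra hlt
    push Not at hlt
    have := Nat.mul_le_mul_left K hlt
    omega
  have h4 : (x ++ z.flatMap code)[x.length + K * t]? = some l₀ := by
    rw [List.getElem?_append_right (by omega), Nat.add_sub_cancel_left]
    exact blocks_get hlen hhead hK z t h3
  rw [h, List.getElem?_append_left (by rw [List.length_append, List.length_replicate]; omega),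
    List.getElem?_append_right (by omega), List.getElem?_replicate, if_pos (by omega)] at h4
  exact hc (Option.some.inj h4)

/-- The end marks coincide. -/
lemma align {c d : α} (hcd : c ≠ d) {M : ℕ} {X U r s : List α}
    (hX : ∀ p q, X ≠ p ++ List.replicate M c ++ q) (hr : r.length ≤ M)
    (h : X ++ ((List.replicate M c ++ [d]) ++ r) = U ++ ((List.replicate M c ++ [d]) ++ s)) :
    X = U := by
  have hl := congrArg List.length h
  simp only [List.length_append, List.length_replicate, List.length_singleton] at hl
  have hg1 : ∀ (V v : List α), (V ++ ((List.replicate M c ++ [d]) ++ v))[V.length + M]? =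
      some d := by
    intro V v
    rw [List.getElem?_append_right (by omega), Nat.add_sub_cancel_left,
      List.getElem?_append_left (by simp), List.getElem?_append_right (by simp)]
    simp
  have hg2 : ∀ (V v : List α) (i : ℕ), V.length ≤ i → i < V.length + M →
      (V ++ ((List.replicate M c ++ [d]) ++ v))[i]? = some c := by
    intro V v i h1 h2
    rw [List.getElem?_append_right h1,
      List.getElem?_append_left (by simp; omega), List.getElem?_append_left (by simp; omega),
      List.getElem?_replicate, if_pos (by omega)]
  rcases lt_trichotomy X.length U.length with h1 | h1 | h1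
  · exfalso
    have h2 := hg1 X r
    rw [h, hg2 U s _ (by omega) (by omega)] at h2
    exact hcd (Option.some.inj h2)
  · exact (List.append_inj h h1).1
  · exfalso
    rcases le_or_gt X.length (U.length + M) with h2 | h2
    · rcases Nat.lt_or_ge (U.length + M) X.length with h3 | h3
      · omega
      · have h4 := hg1 U s
        rw [← h, hg2 X r _ h3 (by omega)] at h4
        exact hcd (Option.some.inj h4)
    · have h3 := congrArg (List.take X.length) h
      rw [List.take_left'  rfl, List.take_append, List.take_of_length_le h1.le,
        List.take_append, List.take_append, List.take_of_length_le (by simp; omega)] at h3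
      refine hX U (List.take (X.length - U.length - (List.replicate M c).length) [d] ++
        List.take (X.length - U.length - (List.replicate M c ++ [d]).length) s) ?_
      rw [List.append_assoc, ← List.append_assoc (List.replicate M c)]
      exact h3

end blocks

lemma exists_code {α γ : Type} [Finite α] [Nontrivial α] [Finite γ] (a₀ : γ) (y : List α)
    (hy : y ≠ []) (N : ℕ) : ∃ (K m : ℕ) (code : γ → List α) (l₀ c : α), N < K ∧ 1 ≤ K ∧
      (∀ b, (code b).length = K) ∧ Function.Injective code ∧
      code a₀ = (List.replicate m y).flatten ∧ c ≠ l₀ ∧ ∀ b, (code b).head? = some l₀ := by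
  classical
  have : Fintype α := Fintype.ofFinite α
  have : Fintype γ := Fintype.ofFinite γ
  obtain ⟨l₀, y', rfl⟩ := List.exists_cons_of_ne_nil hy
  obtain ⟨c, hc⟩ := exists_ne l₀
  set n := Fintype.card γ with hn
  set m := N + n + 2 with hm
  set tl := y' ++ (List.replicate (m - 1) (l₀ :: y')).flatten with htl
  have e1 : (List.replicate m (l₀ :: y')).flatten = l₀ :: tl := by
    have : m = (m - 1) + 1 := by omega
    rw [this, List.replicate_succ, List.flatten_cons]
    rfl
  have h1 : m ≤ tl.length + 1 := by
    have h2 := congrArg List.length e1
    rw [List.length_cons] at h2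
    rw [← h2, List.length_flatten, List.map_replicate, List.sum_replicate, smul_eq_mul,
      List.length_cons]
    exact Nat.le_mul_of_pos_right m (Nat.succ_pos _)
  have h2 : Fintype.card γ ≤ Fintype.card (List.Vector α tl.length) := by
    rw [card_vector]
    have h3 : 2 ≤ Fintype.card α := Fintype.one_lt_card
    calc Fintype.card γ ≤ 2 ^ Fintype.card γ := Nat.lt_two_pow_self.le
      _ ≤ 2 ^ tl.length := Nat.pow_le_pow_right (by norm_num) (by omega)
      _ ≤ Fintype.card α ^ tl.length := Nat.pow_le_pow_left h3 _
  obtain ⟨e⟩ := Function.Embedding.nonempty_of_card_le h2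
  let e' : γ → List.Vector α tl.length := fun b => Equiv.swap (e a₀) ⟨tl, rfl⟩ (e b)
  have he' : Function.Injective e' := (Equiv.injective _).comp e.injective
  refine ⟨tl.length + 1, m, fun b => l₀ :: (e' b).toList, l₀, c, by omega, by omega, ?_, ?_, ?_,
    hc, fun b => rfl⟩
  · intro b
    simp
  · intro b b' h
    apply he'
    have h3 := (List.cons.inj h).2
    exact List.Vector.toList_injective h3
  · rw [e1]
    have h3 : e' a₀ = ⟨tl, rfl⟩ := Equiv.swap_apply_left _ _
    show l₀ :: (e' a₀).toList = _
    rw [h3]
    rfl

/-- The words of `P` in the contexts `(u, s)` of `ρ`. -/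
def ctx {α : Type} (ρ : List α → List α → Prop) (P : Language α) : Language α :=
  {w | ∃ u v s, ρ u s ∧ v ∈ P ∧ w = u ++ (v ++ s)}

/-- If the set of contexts `ρ` contains `(x y^t, r)` for all `t` and `ctx ρ` sends `REALTIME` to
`LINTIME`, then left multiplication with `{a}*` sends `REALTIME` to `LINTIME`, over all
alphabets. -/
theorem hard {α : Type} [Finite α] [Nontrivial α] (ρ : List α → List α → Prop)
    (x y r : List α) (hy : y ≠ []) (hxy : ∀ t, ρ (x ++ (List.replicate t y).flatten) r)
    (H : ∀ P : Language α, REALTIME P → LINTIME (ctx ρ P))
    (β : Type) [Finite β] (a : β) (P : Language β) (hP : REALTIME P) :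
    LINTIME (({[a]} : Language β)∗ * P) := by
  classical
  obtain ⟨K, m, code, l₀, c, hNK, hK, hlen, hinj, hcode, hc, hhead⟩ :=
    exists_code (some a : Option β) y hy x.length
  set M := x.length + K + r.length with hM
  set E := List.replicate M c ++ [l₀] with hE
  have h1 := REALTIME.block K hK code hlen hinj (withNone_REALTIME hP)
  have h2 := REALTIME.append_const h1 E
  have h3 := H _ h2
  have hf : LinFun (fun w : List β => x ++ ((insD a w).flatMap code ++ (E ++ r))) :=
    (LinFun.const x).append (((LinFun.flatMap code).comp (LinFun.insD a)).append
      (LinFun.const (E ++ r)))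
  have h4 := LINTIME.preimage hf h3
  refine LINTIME.congr (fun w => ?_) h4
  constructor
  · rintro ⟨u, p', s, _, ⟨p, ⟨z, hz, rfl⟩, rfl⟩, hups⟩
    have h5 : (x ++ (insD a w).flatMap code) ++ (E ++ r) = (u ++ z.flatMap code) ++ (E ++ s) := by
      rw [List.append_assoc, hups]
      simp only [List.append_assoc]
    have h6 := align (hcd := hc) (M := M)
      (fun p q => no_run hlen hc hhead hK x (insD a w) M (by omega) p q) (by omega) h5
    have h7 := blocks_suffix hK hlen hinj hNK h6
    obtain ⟨i, p, h8, h9⟩ := suffix_insD a w z h7 hz.1
    refine Language.mem_mul.2 ⟨List.replicate i a, ?_, p, ?_, h8.symm⟩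
    · rw [mem_kstar_singleton]
      intro y hy
      exact List.eq_of_mem_replicate hy
    · rw [← h9]
      exact hz.2
  · intro hw
    obtain ⟨s, hs, p, hp, rfl⟩ := Language.mem_mul.1 hw
    rw [mem_kstar_singleton] at hs
    obtain ⟨i, rfl⟩ : ∃ i, s = List.replicate i a :=
      ⟨s.length, List.eq_replicate_iff.mpr ⟨rfl, hs⟩⟩
    have h5 : (insD a (List.replicate i a ++ p)).flatMap code =
        (List.replicate (m * i) y).flatten ++ (insD a p).flatMap code := by
      rw [insD_replicate, List.flatMap_append]
      congr 1
      clear hs hw
      induction i with
      | zero => simp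
      | succ i ih =>
        rw [List.replicate_succ, List.flatMap_cons, ih, hcode, mul_add, mul_one, add_comm,
          List.replicate_add, List.flatten_append]
    refine ⟨x ++ (List.replicate (m * i) y).flatten, (insD a p).flatMap code ++ E, r,
      hxy (m * i), ⟨_, ⟨insD a p, ⟨none_mem_insD a p, ?_⟩, rfl⟩, rfl⟩, ?_⟩
    · rw [del_insD]
      exact hp
    · show x ++ ((insD a (List.replicate i a ++ p)).flatMap code ++ (E ++ r)) = _
      rw [h5]
      simp only [List.append_assoc]

end Pool.Agent.Helper95.LT
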