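import Pool.Agent.Helper95.LT.Pow

/-!
# The linear-time hierarchy in time `2 ^ (n / q)`

If `LINTIME` is closed under concatenation then `O(log n)` guessed bits do not help; for words
padded to length `2 ^ (n / q)` this gives `O(n)` guessed bits.
-/

namespace Pool.Agent.Helper95.LT

open Pool.Agent.Helper86 Pool.Agent.Helper86.Prog
open scoped Computability

section compare

/-- `j` marks and `n` letters: no error iff `j ≤ n`. -/
lemma mark_ok (j n : ℕ) :
    (∀ y ∈ mark (List.replicate j none ++ some none ::
      List.replicate n (some (some ())) : List (Option (Option Unit))), y ≠ none) ↔ j ≤ n := by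
  have e : ∀ n : ℕ, (List.replicate n (some (some ())) : List (Option (Option Unit))) =
      lett (List.replicate n ()) := by
    intro n
    unfold lett
    rw [List.map_replicate]
  rw [e n]
  unfold mark
  rw [markTop_ticks, Nat.zero_add]
  constructor
  · intro h
    obtain ⟨w, hw, hj⟩ := markR_clean (lett (List.replicate n ())) j (fun h1 => h none h1 rfl)
    have h1 := congrArg List.length hw
    unfold lett at h1
    rw [List.length_map, List.length_map, List.length_replicate] at h1
    omega
  · intro h y hy h1
    subst h1
    rw [markR_lett _ j (by simpa using h)] at hy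
    exact none_notMem_marked _ _ hy

variable {α : Type}

/-- a guessed bit -/
def lf (z : Bool ⊕ Option α) : List (Option (Option Unit)) :=
  match z with
  | Sum.inl _ => [none]
  | Sum.inr _ => []

/-- a letter of the word -/
def rf (c : ℕ) (z : Bool ⊕ Option α) : List (Option (Option Unit)) :=
  match z with
  | Sum.inr (some _) => List.replicate c (some (some ()))
  | _ => []

/-- the letters of the certificate word -/
def tf (z : Bool ⊕ Option α) : List (Option (Bool ⊕ α)) :=
  match z with
  | Sum.inl b => [some (Sum.inl b)]
  | Sum.inr (some x) => [some (Sum.inr x)]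
  | Sum.inr none => [none]

lemma lf_word (y : List Bool) (w : List (Option α)) :
    (y.map Sum.inl ++ w.map Sum.inr).flatMap (lf (α := α)) = List.replicate y.length none := by
  have h1 : ∀ y : List Bool, (y.map Sum.inl).flatMap (lf (α := α)) =
      List.replicate y.length none := by
    intro y
    induction y with
    | nil => rfl
    | cons b y ih =>
      rw [List.map_cons, List.flatMap_cons, ih]
      rfl
  have h2 : ∀ w : List (Option α), (w.map Sum.inr).flatMap (lf (α := α)) = [] := by
    intro w
    induction w with
    | nil => rfl
    | cons b w ih =>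
      rw [List.map_cons, List.flatMap_cons, ih]
      rfl
  rw [List.flatMap_append, h1, h2, List.append_nil]

lemma rf_word (c : ℕ) (y : List Bool) (w : List α) (m : ℕ) :
    (y.map Sum.inl ++ (w.map some ++ List.replicate m none).map Sum.inr).flatMap
      (rf (α := α) c) = List.replicate (c * w.length) (some (some ())) := by
  have h1 : ∀ y : List Bool, (y.map Sum.inl).flatMap (rf (α := α) c) = [] := by
    intro y
    induction y with
    | nil => rfl
    | cons b y ih =>
      rw [List.map_cons, List.flatMap_cons, ih]
      rfl
  have h2 : ∀ w : List α, ((w.map some).map Sum.inr).flatMap (rf (α := α) c) =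
      List.replicate (c * w.length) (some (some ())) := by
    intro w
    induction w with
    | nil => rfl
    | cons b w ih =>
      rw [List.map_cons, List.map_cons, List.flatMap_cons, ih, List.length_cons]
      show List.replicate c (some (some ())) ++ _ = _
      rw [List.replicate_append_replicate]
      congr 1
      ring
  have h3 : ∀ m : ℕ, ((List.replicate m (none : Option α)).map Sum.inr).flatMap
      (rf (α := α) c) = [] := by
    intro m
    induction m with
    | zero => rfl
    | succ m ih =>
      rw [List.replicate_succ, List.map_cons, List.flatMap_cons, ih]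
      rfl
  rw [List.flatMap_append, h1, List.map_append, List.flatMap_append, h2, h3, List.append_nil,
    List.nil_append]

lemma tf_word (y : List Bool) (w : List α) (m : ℕ) :
    (y.map Sum.inl ++ (w.map some ++ List.replicate m none).map Sum.inr).flatMap
      (tf (α := α)) = (y.map Sum.inl ++ w.map Sum.inr).map some ++ List.replicate m none := by
  have h1 : ∀ y : List Bool, (y.map Sum.inl).flatMap (tf (α := α)) =
      (y.map Sum.inl).map some := by
    intro y
    induction y with
    | nil => rfl
    | cons b y ih =>
      rw [List.map_cons, List.flatMap_cons, ih]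
      rfl
  have h2 : ∀ w : List α, ((w.map some).map Sum.inr).flatMap (tf (α := α)) =
      (w.map Sum.inr).map some := by
    intro w
    induction w with
    | nil => rfl
    | cons b w ih =>
      rw [List.map_cons, List.map_cons, List.flatMap_cons, ih]
      rfl
  have h3 : ∀ m : ℕ, ((List.replicate m (none : Option α)).map Sum.inr).flatMap
      (tf (α := α)) = List.replicate m none := by
    intro m
    induction m with
    | zero => rfl
    | succ m ih =>
      rw [List.replicate_succ, List.map_cons, List.flatMap_cons, ih]
      rfl
  rw [List.flatMap_append, h1, List.map_append, List.flatMap_append, h2, h3, List.map_append,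
    List.append_assoc]

/-- the certificates: short guess and membership in `P'` -/
def certLang (c : ℕ) (P' : Language (Option (Bool ⊕ α))) : Language (Bool ⊕ Option α) :=
  {z | z.flatMap tf ∈ P' ∧
    ∀ y ∈ mark (z.flatMap lf ++ ([some none] ++ (z.flatMap (rf c) ++
      List.replicate c (some (some ()))))), y ≠ none}

lemma certLang_LINTIME [Finite α] (c : ℕ) {P' : Language (Option (Bool ⊕ α))}
    (hP' : LINTIME P') : LINTIME (certLang c P') := by
  have a1 := LINTIME.preimage (LinFun.flatMap (tf (α := α))) hP'
  have a2 : LINTIME {m : List (Option (Unit × Bool)) | ∀ y ∈ m, y ≠ none} :=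
    (REALTIME_forall (fun y => y ≠ none)).lintime
  have hf : LinFun (fun z : List (Bool ⊕ Option α) => z.flatMap lf ++ ([some none] ++
      (z.flatMap (rf c) ++ List.replicate c (some (some ()))))) :=
    (LinFun.flatMap _).append ((LinFun.const _).append ((LinFun.flatMap _).append
      (LinFun.const _)))
  have a3 := LINTIME.preimage hf (LINTIME.preimage (LinFun.mark (α := Unit)) a2)
  exact LINTIME.congr (fun z => Iff.rfl) (a1.inter a3)

lemma mem_certLang (c : ℕ) (P' : Language (Option (Bool ⊕ α))) (y : List Bool) (w : List α)
    (m : ℕ) :
    y.map Sum.inl ++ (w.map some ++ List.replicate m none).map Sum.inr ∈ certLang c P' ↔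
      ((y.map Sum.inl ++ w.map Sum.inr).map some ++ List.replicate m none ∈ P' ∧
        y.length ≤ c * (w.length + 1)) := by
  show (_ ∧ _) ↔ _
  rw [tf_word, lf_word, rf_word, List.replicate_append_replicate, List.singleton_append,
    mark_ok, mul_add, mul_one]

end compare

/-- The padded words are recognised in linear time. -/
def Padded (α : Type) (L : Language α) : Prop :=
  ∀ q : ℕ, 1 ≤ q → ∃ L' : Language (Option α), LINTIME L' ∧ ∀ (w : List α) (m : ℕ),
    2 ^ (w.length / q) ≤ m → (w.map some ++ List.replicate m none ∈ L' ↔ w ∈ L)

lemma log_bound (q n m : ℕ) (hq : 1 ≤ q) (hm : 2 ^ (n / q) ≤ m) :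
    n + 1 ≤ 2 * q * Nat.log 2 (n + m + 2) := by
  set k := n / q with hk
  have h1 : n < q * (k + 1) := by
    have := Nat.lt_mul_div_succ n (show 0 < q by omega)
    rwa [← hk] at this
  have h2 : k ≤ Nat.log 2 (n + m + 2) := by
    apply Nat.le_log_of_pow_le (by norm_num)
    omega
  have h3 : 1 ≤ Nat.log 2 (n + m + 2) := by
    apply Nat.le_log_of_pow_le (by norm_num)
    omega
  calc n + 1 ≤ q * (k + 1) := h1
    _ ≤ q * (2 * Nat.log 2 (n + m + 2)) := Nat.mul_le_mul_left _ (by omega)
    _ = 2 * q * Nat.log 2 (n + m + 2) := by ring

lemma div_bound (q c n l : ℕ) (hq : 1 ≤ q) (hl : l ≤ c * (n + 1)) :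
    (l + n) / (2 * q * (c + 1)) ≤ n / q := by
  have h1 : l + n ≤ (c + 1) * (n + 1) := by
    rw [add_mul, one_mul]
    omega
  calc (l + n) / (2 * q * (c + 1)) ≤ ((c + 1) * (n + 1)) / (2 * q * (c + 1)) :=
        Nat.div_le_div_right h1
    _ = (n + 1) / (2 * q) := by
        rw [mul_comm (c + 1) (n + 1)]
        exact Nat.mul_div_mul_right _ _ (Nat.succ_pos c)
    _ ≤ n / q := by
        rcases Nat.eq_zero_or_pos n with rfl | hn
        · rw [Nat.div_eq_of_lt (by omega)]
          exact Nat.zero_le _
        · calc (n + 1) / (2 * q) ≤ (2 * n) / (2 * q) := Nat.div_le_div_right (by omega)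
            _ = n / q := Nat.mul_div_mul_left _ _ (by norm_num)

theorem padded_of_linH (h : ConcatClosed) {α : Type} {L : Language α} (hL : LinH α L) :
    Finite α → Padded α L := by
  induction hL with
  | @base α L hL =>
    intro _ q _
    refine ⟨_, LINTIME.preimage (LinFun.flatMap Option.toList) hL, fun w m _ => ?_⟩
    show (w.map some ++ List.replicate m none).flatMap Option.toList ∈ L ↔ w ∈ L
    have h1 : ∀ m : ℕ, (List.replicate m (none : Option α)).flatMap Option.toList = [] := by
      intro m
      induction m with
      | zero => rfl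
      | succ m ih =>
        rw [List.replicate_succ, List.flatMap_cons, ih]
        rfl
    rw [List.flatMap_append, del_map_some', h1, List.append_nil]
  | @compl α L _ ih =>
    intro hα q hq
    obtain ⟨L', h1, h2⟩ := ih hα q hq
    exact ⟨_, LINTIME.compl h1, fun w m hm => not_congr (h2 w m hm)⟩
  | @guess α c P _ ih =>
    intro hα q hq
    have : 1 ≤ 2 * q * (c + 1) := Nat.mul_pos (by omega) (Nat.succ_pos c)
    obtain ⟨P', h1, h2⟩ := ih inferInstance (2 * q * (c + 1)) this
    have h3 : GCLOG ({x | ∃ y : List Bool, y.length ≤ c * (2 * q) * Nat.log 2 (x.length + 2) ∧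
        y.map Sum.inl ++ x.map Sum.inr ∈ certLang c P'} : Language (Option α)) :=
      ⟨c * (2 * q), certLang c P', certLang_LINTIME c h1, fun w => Iff.rfl⟩
    refine ⟨_, GCLOG.lintime h h3, fun w m hm => ?_⟩
    show (∃ y : List Bool, y.length ≤ c * (2 * q) *
      Nat.log 2 ((w.map some ++ List.replicate m none).length + 2) ∧
        y.map Sum.inl ++ (w.map some ++ List.replicate m none).map Sum.inr ∈ certLang c P') ↔
      ∃ y : List Bool, y.length ≤ c * (w.length + 1) ∧ y.map Sum.inl ++ w.map Sum.inr ∈ P
    refine exists_congr fun y => ?_
    rw [mem_certLang, List.length_append, List.length_map, List.length_replicate]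
    have h4 : y.length ≤ c * (w.length + 1) →
        (((y.map Sum.inl ++ w.map Sum.inr : List (Bool ⊕ α)).map some ++
          List.replicate m none ∈ P') ↔ (y.map Sum.inl ++ w.map Sum.inr : List (Bool ⊕ α)) ∈ P) := by
      intro h5
      apply h2
      rw [List.length_append, List.length_map, List.length_map]
      exact (Nat.pow_le_pow_right (by norm_num) (div_bound q c w.length y.length hq h5)).trans hm
    constructor
    · rintro ⟨_, h5, h6⟩
      exact ⟨h6, (h4 h6).1 h5⟩
    · rintro ⟨h5, h6⟩
      refine ⟨?_, (h4 h5).2 h6, h5⟩
      have h7 := log_bound q w.length m hq hm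
      calc y.length ≤ c * (w.length + 1) := h5
        _ ≤ c * (2 * q * Nat.log 2 (w.length + m + 2)) := Nat.mul_le_mul_left _ h7
        _ = c * (2 * q) * Nat.log 2 (w.length + m + 2) := by ring

/-- If `LINTIME` is closed under concatenation then the linear-time hierarchy is contained in time
`O(2 ^ (n / q))` for every `q`. -/
theorem linH_expTime (h : ConcatClosed) {α : Type} [Finite α] {L : Language α}
    (hL : LinH α L) (q : ℕ) : ExpTime (q + 1) L := by
  obtain ⟨L', h1, h2⟩ := padded_of_linH h hL inferInstance (q + 1) (by omega)
  exact expTime_of_padded q h1 fun w => h2 w _ le_rfl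

end Pool.Agent.Helper95.LT
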