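import Pool.Agent.Helper95.LT.Tools

/-!
# Operations on languages whose closure is equivalent to closure under concatenation
-/

namespace Pool.Agent.Helper95.LT

open Pool.Agent.Helper86 Pool.Agent.Helper86.Prog
open scoped Computability

section from_concat

variable {α : Type}

lemma cyc_closed (h : ConcatClosed) [Finite α] {L : Language α} (hL : LINTIME L) :
    LINTIME (cyc L) := by
  have a1 := LINTIME.preimage ((LinFun.flatMap (getF (α := α))).append
    (LinFun.flatMap (getT (α := α)))) hL
  refine LINTIME.congr (fun w => ?_) (cut h a1)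
  constructor
  · rintro ⟨j, hj, h1⟩
    have h2 : (mk j w).flatMap getF ++ (mk j w).flatMap getT ∈ L := h1
    rw [mk_getF, mk_getT] at h2
    exact ⟨w.drop j, w.take j, (List.take_append_drop j w).symm, h2⟩
  · rintro ⟨u, v, rfl, h1⟩
    refine ⟨v.length, by simp, ?_⟩
    show (mk v.length (v ++ u)).flatMap getF ++ (mk v.length (v ++ u)).flatMap getT ∈ L
    rw [mk_getF, mk_getT, List.drop_left, List.take_left]
    exact h1

lemma min_closed (h : ConcatClosed) [Finite α] {L : Language α} (hL : LINTIME L) :
    LINTIME (minL L) := by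
  have a1 := LINTIME.preimage (LinFun.flatMap (getT (α := α))) hL
  have a2 := LINTIME.preimage (LinFun.flatMap (getF (α := α)))
    (REALTIME_ne_nil (α := α)).lintime
  have a3 := LINTIME.compl (cut h (a1.inter a2))
  refine LINTIME.congr (fun w => ?_) (hL.inter a3)
  constructor
  · rintro ⟨h1, h2⟩
    refine ⟨h1, fun u' h3 h4 h5 => h2 ?_⟩
    obtain ⟨v, rfl⟩ := h3
    refine ⟨u'.length, by simp, ?_, ?_⟩
    · show (mk u'.length (u' ++ v)).flatMap getT ∈ L
      rw [mk_getT, List.take_left]
      exact h5
    · show (mk u'.length (u' ++ v)).flatMap getF ≠ []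
      rw [mk_getF, List.drop_left]
      rintro rfl
      exact h4 (List.append_nil u').symm
  · rintro ⟨h1, h2⟩
    refine ⟨h1, ?_⟩
    rintro ⟨j, hj, h3, h4⟩
    have h3' : (mk j w).flatMap getT ∈ L := h3
    have h4' : (mk j w).flatMap getF ≠ [] := h4
    rw [mk_getT] at h3'
    rw [mk_getF] at h4'
    refine h2 (w.take j) (List.take_prefix j w) (fun h5 => h4' ?_) h3'
    have h6 := List.take_append_drop j w
    rw [h5] at h6
    exact List.append_right_eq_self.1 h6

lemma del1_closed (h : ConcatClosed) [Finite α] (a : α) {L : Language α} (hL : LINTIME L) :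
    LINTIME (del1 a L) := by
  have a1 := LINTIME.preimage ((LinFun.flatMap (getT (α := α))).append
    ((LinFun.const [a]).append (LinFun.flatMap (getF (α := α))))) hL
  refine LINTIME.congr (fun w => ?_) (cut h a1)
  constructor
  · rintro ⟨j, hj, h1⟩
    have h2 : (mk j w).flatMap getT ++ ([a] ++ (mk j w).flatMap getF) ∈ L := h1
    rw [mk_getF, mk_getT] at h2
    exact ⟨w.take j, w.drop j, (List.take_append_drop j w).symm, h2⟩
  · rintro ⟨u, v, rfl, h1⟩
    refine ⟨u.length, by simp, ?_⟩
    show (mk u.length (u ++ v)).flatMap getT ++ ([a] ++ (mk u.length (u ++ v)).flatMap getF) ∈ L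
    rw [mk_getF, mk_getT, List.drop_left, List.take_left]
    exact h1

/-- the first unmarked letter gets the mark -/
def firstF (s : Bool) (x : α × Bool) : Bool := s || !x.2
def firstGG (s : Bool) (x : α × Bool) : Option (α × Bool) := some (x.1, !s && !x.2)

lemma first_after (w : List α) :
    oout firstF firstGG true (w.map fun x => (x, false)) = w.map fun x => (x, false) := by
  induction w with
  | nil => rfl
  | cons x w ih =>
    rw [List.map_cons, oout]
    have e : firstF true (x, false) = true := rfl
    rw [e, ih]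
    rfl

lemma first_mk (u : List α) (a : α) (v : List α) :
    oout firstF firstGG false (mk u.length (u ++ a :: v)) =
      (u.map fun x => (x, false)) ++ (a, true) :: (v.map fun x => (x, false)) := by
  unfold mk
  rw [List.take_left, List.drop_left]
  induction u with
  | nil =>
    rw [List.map_nil, List.nil_append, List.map_cons, oout]
    have e : firstF false (a, false) = true := rfl
    rw [e, first_after]
    rfl
  | cons x u ih =>
    rw [List.map_cons, List.cons_append, oout]
    have e : firstF false (x, true) = false := rfl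
    rw [e, ih]
    rfl

lemma exQ_closed (h : ConcatClosed) [Finite α] {S : Language (α × Bool)} (hS : LINTIME S) :
    LINTIME (exQ S) := by
  have a1 := LINTIME.preimage (LinFun.oout (α := α × Bool) firstF firstGG false) hS
  have a2 := LINTIME.preimage (LinFun.flatMap (getF (α := α)))
    (REALTIME_ne_nil (α := α)).lintime
  refine LINTIME.congr (fun w => ?_) (cut h (a1.inter a2))
  constructor
  · rintro ⟨j, hj, h1, h2⟩
    have h1' : oout firstF firstGG false (mk j w) ∈ S := h1
    have h2' : (mk j w).flatMap getF ≠ [] := h2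
    rw [mk_getF] at h2'
    obtain ⟨a, v, hav⟩ := List.exists_cons_of_ne_nil h2'
    have h3 : w = w.take j ++ a :: v := by
      rw [← hav, List.take_append_drop]
    have h4 : (w.take j).length = j := List.length_take_of_le hj
    refine ⟨w.take j, a, v, h3, ?_⟩
    rw [← first_mk, ← h3, h4]
    exact h1'
  · rintro ⟨u, a, v, rfl, h1⟩
    refine ⟨u.length, by simp, ?_, ?_⟩
    · show oout firstF firstGG false (mk u.length (u ++ a :: v)) ∈ S
      rw [first_mk]
      exact h1
    · show (mk u.length (u ++ a :: v)).flatMap getF ≠ []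
      rw [mk_getF, List.drop_left]
      simp

end from_concat

section to_concat

variable {α : Type}

lemma LinFun.endMark [Finite α] :
    LinFun (fun w : List α => (w.flatMap fun x => [some x]) ++ [(none : Option α)]) :=
  (LinFun.flatMap _).append (LinFun.const _)

lemma flatMap_some (w : List α) : (w.flatMap fun x => [some x]) = w.map some := by
  induction w with
  | nil => rfl
  | cons x w ih => rw [List.flatMap_cons, ih]; rfl

/-- a language over the alphabet with one more letter -/
lemma LINTIME.mapSome [Finite α] {L : Language α} (hL : LINTIME L) :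
    LINTIME ({z | ∃ u ∈ L, z = u.map some} : Language (Option α)) := by
  have a1 : LINTIME {m : List (Option α) | ∀ y ∈ m, y ≠ none} :=
    (REALTIME_forall (fun y => y ≠ none)).lintime
  have a2 : LINTIME {m : List (Option α) | m.flatMap Option.toList ∈ L} :=
    LINTIME.preimage (LinFun.flatMap Option.toList) hL
  refine LINTIME.congr (fun z => ?_) (a1.inter a2)
  constructor
  · rintro ⟨h1, h2⟩
    refine ⟨z.flatMap Option.toList, h2, ?_⟩
    clear h2
    induction z with
    | nil => rfl
    | cons x z ih =>
      rcases x with _ | x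
      · exact absurd rfl (h1 none List.mem_cons_self)
      · show some x :: z = some x :: (z.flatMap Option.toList).map some
        rw [← ih (fun y hy => h1 y (List.mem_cons_of_mem _ hy))]
  · rintro ⟨u, hu, rfl⟩
    refine ⟨?_, ?_⟩
    · intro y hy
      rw [List.mem_map] at hy
      obtain ⟨x, _, rfl⟩ := hy
      simp
    · show (u.map some).flatMap Option.toList ∈ L
      rw [del_map_some']
      exact hu

lemma LINTIME_nil [Finite α] : LINTIME ({w | w = []} : Language α) := by
  refine LINTIME.congr (fun w => ?_) (LINTIME.compl (REALTIME_ne_nil (α := α)).lintime)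
  show ¬ (w ≠ []) ↔ w = []
  exact not_not

/-- split of `w.map some ++ [none]` -/
lemma split_end {w : List α} {p q : List (Option α)} (h : w.map some ++ [none] = p ++ q) :
    (q = [] ∧ p = w.map some ++ [none]) ∨
      ∃ p' q', w = p' ++ q' ∧ p = p'.map some ∧ q = q'.map some ++ [none] := by
  rcases List.eq_nil_or_concat q with rfl | ⟨q₁, x, rfl⟩
  · left
    exact ⟨rfl, by rw [h, List.append_nil]⟩
  · right
    rw [List.concat_eq_append, ← List.append_assoc] at h
    obtain ⟨h1, h2⟩ := List.append_inj' h rfl
    have h3 : x = none := (List.cons.inj h2).1.symm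
    subst h3
    rw [List.map_eq_append_iff] at h1
    obtain ⟨p', q', h4, h5, h6⟩ := h1
    exact ⟨p', q', h4, h5.symm, by rw [List.concat_eq_append, h6]⟩

lemma map_some_ne_end (u w : List α) : (u.map some : List (Option α)) ≠ w.map some ++ [none] := by
  intro h
  have h1 : (none : Option α) ∈ u.map some := by rw [h]; simp
  rw [List.mem_map] at h1
  obtain ⟨x, _, hx⟩ := h1
  exact absurd hx (by simp)

lemma map_some_inj {u w : List α} (h : u.map some = (w.map some : List (Option α))) : u = w :=
  List.map_injective_iff.2 (Option.some_injective α) h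

theorem concat_of_sq (h : ∀ (β : Type) [Finite β] (L : Language β), LINTIME L → LINTIME (L * L)) :
    ConcatClosed := by
  intro α _ L₁ L₂ h₁ h₂
  obtain ⟨P, hP, hPm⟩ : ∃ P : Language (Option α), LINTIME P ∧ ∀ z, z ∈ P ↔
      ((∃ u ∈ L₁, z = u.map some) ∨ (∃ u ∈ L₂, z = u.map some ++ [none])) := by
    refine ⟨_, LINTIME.union (LINTIME.mapSome h₁)
      (LINTIME.markedConcat h₂ (LINTIME_nil (α := α))), fun z => or_congr Iff.rfl ?_⟩
    constructor
    · rintro ⟨u, hu, v, hv, hz⟩
      have hv' : v = [] := hv
      subst hv'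
      exact ⟨u, hu, hz⟩
    · rintro ⟨u, hu, hz⟩
      exact ⟨u, hu, [], rfl, hz⟩
  have a2 := LINTIME.preimage (LinFun.endMark (α := α)) (h _ _ hP)
  refine LINTIME.congr (fun w => ?_) a2
  show (w.flatMap fun x => [some x]) ++ [(none : Option α)] ∈ P * P ↔ _
  rw [flatMap_some, Language.mem_mul, Language.mem_mul]
  constructor
  · rintro ⟨p, hp, q, hq, hpq⟩
    rw [hPm] at hp hq
    rcases split_end hpq.symm with ⟨rfl, rfl⟩ | ⟨p', q', rfl, rfl, rfl⟩
    · -- `q` is empty
      have h3 : w ∈ L₂ := by
        rcases hp with ⟨u, _, h4⟩ | ⟨u, hu, h4⟩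
        · exact absurd h4.symm (map_some_ne_end u w)
        · rw [map_some_inj (List.append_cancel_right h4)]
          exact hu
      have h4 : [] ∈ L₁ := by
        rcases hq with ⟨u, hu, h5⟩ | ⟨u, _, h5⟩
        · have : u = [] := by
            rcases u with _ | ⟨x, u⟩
            · rfl
            · simp at h5
          rw [this] at hu
          exact hu
        · simp at h5
      exact ⟨[], h4, w, h3, rfl⟩
    · refine ⟨p', ?_, q', ?_, rfl⟩
      · rcases hp with ⟨u, hu, h4⟩ | ⟨u, _, h4⟩
        · rw [map_some_inj h4]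
          exact hu
        · exact absurd h4 (map_some_ne_end p' u)
      · rcases hq with ⟨u, _, h4⟩ | ⟨u, hu, h4⟩
        · exact absurd h4.symm (map_some_ne_end u q')
        · rw [map_some_inj (List.append_cancel_right h4)]
          exact hu
  · rintro ⟨u, hu, v, hv, rfl⟩
    refine ⟨u.map some, (hPm _).2 (Or.inl ⟨u, hu, rfl⟩), v.map some ++ [none],
      (hPm _).2 (Or.inr ⟨v, hv, rfl⟩), ?_⟩
    simp

theorem concat_of_cyc (h : ∀ (β : Type) [Finite β] (L : Language β), LINTIME L →
    LINTIME (cyc L)) : ConcatClosed := by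
  intro α _ L₁ L₂ h₁ h₂
  have a1 := h _ _ (LINTIME.markedConcat h₂ h₁)
  have a2 := LINTIME.preimage (LinFun.endMark (α := α)) a1
  refine LINTIME.congr (fun w => ?_) a2
  show (w.flatMap fun x => [some x]) ++ [(none : Option α)] ∈ cyc _ ↔ _
  rw [flatMap_some, Language.mem_mul]
  constructor
  · rintro ⟨p, q, hpq, v, hv, u, hu, h4⟩
    rcases split_end hpq with ⟨rfl, rfl⟩ | ⟨q', p', rfl, rfl, rfl⟩
    · rw [List.nil_append] at h4
      obtain ⟨h5, h6⟩ := marked_unique (v := []) h4
      rw [← h5] at hv
      rw [← h6] at hu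
      exact ⟨[], hu, w, hv, rfl⟩
    · rw [List.append_assoc, List.singleton_append] at h4
      obtain ⟨h5, h6⟩ := marked_unique h4
      rw [← h5] at hv
      rw [← h6] at hu
      exact ⟨q', hu, p', hv, rfl⟩
  · rintro ⟨u, hu, v, hv, rfl⟩
    refine ⟨v.map some ++ [none], u.map some, by simp, v, hv, u, hu, ?_⟩
    simp

theorem concat_of_del1 (h : ∀ (β : Type) [Finite β] (a : β) (L : Language β), LINTIME L →
    LINTIME (del1 a L)) : ConcatClosed := by
  intro α _ L₁ L₂ h₁ h₂
  have a1 := h _ none _ (LINTIME.markedConcat h₁ h₂)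
  have a2 := LINTIME.preimage (LinFun.flatMap (fun x : α => [some x])) a1
  refine LINTIME.congr (fun w => ?_) a2
  show (w.flatMap fun x => [some x]) ∈ del1 none _ ↔ _
  rw [flatMap_some, Language.mem_mul]
  constructor
  · rintro ⟨p, q, hpq, u, hu, v, hv, h4⟩
    rw [List.map_eq_append_iff] at hpq
    obtain ⟨p', q', rfl, rfl, rfl⟩ := hpq
    obtain ⟨h5, h6⟩ := marked_unique h4
    rw [← h5] at hu
    rw [← h6] at hv
    exact ⟨p', hu, q', hv, rfl⟩
  · rintro ⟨u, hu, v, hv, rfl⟩
    exact ⟨u.map some, v.map some, by simp, u, hu, v, hv, rfl⟩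

/-- before the first mark -/
def qF (s : Bool) (x : α × Bool) : Bool := s || x.2
def qB (s : Bool) (x : α × Bool) : Option α := if s || x.2 then none else some x.1
def qA (s : Bool) (x : α × Bool) : Option α := if s || x.2 then some x.1 else none

lemma qB_true (z : List (α × Bool)) : oout qF qB true z = [] := by
  induction z with
  | nil => rfl
  | cons x z ih =>
    rw [oout]
    have e : qF true x = true := rfl
    rw [e, ih]
    rfl

lemma qA_true (w : List α) : oout qF qA true (w.map fun x => (x, false)) = w := by
  induction w with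
  | nil => rfl
  | cons x w ih =>
    rw [List.map_cons, oout]
    have e : qF true (x, false) = true := rfl
    rw [e, ih]
    rfl

lemma qB_spec (u : List α) (a : α) (z : List (α × Bool)) :
    oout qF qB false ((u.map fun x => (x, false)) ++ (a, true) :: z) = u := by
  induction u with
  | nil =>
    rw [List.map_nil, List.nil_append, oout]
    have e : qF false (a, true) = true := rfl
    rw [e, qB_true]
    rfl
  | cons x u ih =>
    rw [List.map_cons, List.cons_append, oout]
    have e : qF false (x, false) = false := rfl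
    rw [e, ih]
    rfl

lemma qA_spec (u : List α) (a : α) (v : List α) :
    oout qF qA false ((u.map fun x => (x, false)) ++ (a, true) :: (v.map fun x => (x, false))) =
      a :: v := by
  induction u with
  | nil =>
    rw [List.map_nil, List.nil_append, oout]
    have e : qF false (a, true) = true := rfl
    rw [e, qA_true]
    rfl
  | cons x u ih =>
    rw [List.map_cons, List.cons_append, oout]
    have e : qF false (x, false) = false := rfl
    rw [e, ih]
    rfl

theorem concat_of_exQ (h : ∀ (β : Type) [Finite β] (S : Language (β × Bool)), LINTIME S →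
    LINTIME (exQ S)) : ConcatClosed := by
  classical
  intro α _ L₁ L₂ h₁ h₂
  have a1 := LINTIME.preimage (LinFun.oout (α := α × Bool) qF qB false) h₁
  have a2 := LINTIME.preimage (LinFun.oout (α := α × Bool) qF qA false) h₂
  have a3 := h _ _ (a1.inter a2)
  have a4 : LINTIME ({w | w ∈ L₁ ∧ [] ∈ L₂} : Language α) := by
    by_cases h3 : [] ∈ L₂
    · exact LINTIME.congr (fun w => by
        show w ∈ L₁ ↔ (w ∈ L₁ ∧ [] ∈ L₂)
        simp [h3]) h₁
    · exact LINTIME.congr (fun w => by
        show False ↔ (w ∈ L₁ ∧ [] ∈ L₂)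
        simp [h3]) (LINTIME_empty (α := α))
  refine LINTIME.congr (fun w => ?_) (LINTIME.union a3 a4)
  rw [Language.mem_mul]
  constructor
  · rintro (⟨u, a, v, rfl, h3, h4⟩ | ⟨h3, h4⟩)
    · have h3' : oout qF qB false ((u.map fun x => (x, false)) ++
        (a, true) :: (v.map fun x => (x, false))) ∈ L₁ := h3
      have h4' : oout qF qA false ((u.map fun x => (x, false)) ++
        (a, true) :: (v.map fun x => (x, false))) ∈ L₂ := h4
      rw [qB_spec] at h3'
      rw [qA_spec] at h4'
      exact ⟨u, h3', a :: v, h4', rfl⟩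
    · exact ⟨w, h3, [], h4, List.append_nil w⟩
  · rintro ⟨u, hu, v, hv, rfl⟩
    rcases v with _ | ⟨a, v⟩
    · right
      exact ⟨by rwa [List.append_nil], hv⟩
    · left
      refine ⟨u, a, v, rfl, ?_, ?_⟩
      · show oout qF qB false _ ∈ L₁
        rw [qB_spec]
        exact hu
      · show oout qF qA false _ ∈ L₂
        rw [qA_spec]
        exact hv

lemma not_fin_top : ¬ FinSuffixFree (⊤ : Language Bool) := by
  rw [finSuffixFree_iff]
  intro h
  obtain ⟨k, hk⟩ := h.bdd
  have h1 := hk (List.replicate (k + 1) true)
    ((Finset.range (k + 1)).image fun i => List.replicate i true) (by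
      intro u hu
      rw [Finset.mem_image] at hu
      obtain ⟨i, hi, rfl⟩ := hu
      rw [Finset.mem_range] at hi
      refine ⟨⟨List.replicate (k + 1 - i) true, ?_⟩, trivial⟩
      rw [List.replicate_append_replicate]
      congr 1
      omega)
  rw [Finset.card_image_of_injective, Finset.card_range] at h1
  · omega
  · intro i j hij
    have := congrArg List.length hij
    simpa using this

theorem concat_of_top (h : ∀ (L : Language Bool), LINTIME L →
    LINTIME (L * ⊤)) : ConcatClosed := by
  refine hard_right (α := Bool) (n := 1) (fun _ => 1) (fun _ => ⊤) (fun _ => ?_) 0 not_fin_top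
    ?_ ?_
  · refine ⟨Unit, inferInstance, ⟨fun _ _ => (), (), Set.univ⟩, ?_⟩
    ext w
    exact ⟨fun _ => trivial, fun _ => trivial⟩
  · intro h1
    have h2 : ([] : List Bool) ∈ (1 : Language Bool) := Language.nil_mem_one
    rw [h1] at h2
    exact Language.notMem_zero _ h2
  · intro L hL
    refine LINTIME.congr (fun w => ?_) (h L hL)
    constructor
    · intro h1
      exact ⟨0, by rw [one_mul]; exact h1⟩
    · rintro ⟨_, h1⟩
      rw [one_mul] at h1
      exact h1

theorem concat_of_min (h : ∀ (β : Type) [Finite β] (L : Language β), LINTIME L →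
    LINTIME (minL L)) : ConcatClosed := by
  refine concat_of_top fun L hL => ?_
  have a0 : LINTIME (⊤ : Language Bool) :=
    LINTIME.congr (fun w => by
      show ¬ False ↔ w ∈ (⊤ : Language Bool)
      exact ⟨fun _ => trivial, fun _ => id⟩) (LINTIME.compl (LINTIME_empty (α := Bool)))
  have a1 := LINTIME.union (LINTIME.mapSome hL) (LINTIME.markedConcat a0 (LINTIME_nil (α := Bool)))
  have a2 := LINTIME.compl (LINTIME.preimage (LinFun.endMark (α := Bool)) (h _ _ a1))
  refine LINTIME.congr (fun w => ?_) a2
  show ¬ ((w.flatMap fun x => [some x]) ++ [(none : Option Bool)] ∈ minL _) ↔ _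
  rw [flatMap_some, Language.mem_mul]
  constructor
  · intro h1
    by_contra h2
    apply h1
    refine ⟨Or.inr ⟨w, trivial, [], rfl, rfl⟩, ?_⟩
    rintro u' ⟨q, hq⟩ h3 (⟨u, hu, h4⟩ | ⟨u, _, v, hv, h4⟩)
    · rcases split_end hq.symm with ⟨_, h5⟩ | ⟨p', q', h5, h6, _⟩
      · exact h3 h5
      · apply h2
        rw [h6] at h4
        refine ⟨p', ?_, q', trivial, h5.symm⟩
        rw [map_some_inj h4]
        exact hu
    · rcases split_end hq.symm with ⟨_, h5⟩ | ⟨p', q', h5, h6, _⟩
      · exact h3 h5
      · have hv' : v = [] := hv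
        subst hv'
        rw [h6] at h4
        exact map_some_ne_end p' u h4
  · rintro ⟨u, hu, v, _, rfl⟩ ⟨_, h2⟩
    refine h2 (u.map some) ⟨v.map some ++ [none], by simp⟩ ?_ (Or.inl ⟨u, hu, rfl⟩)
    exact map_some_ne_end u _

end to_concat

end Pool.Agent.Helper95.LT
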