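import Pool.Agent.Helper95.LT.Star

/-!
# Writing `2 ^ ⌊n / q⌋` symbols
-/

namespace Pool.Agent.Helper95.LT

open Pool.Agent.Helper86 Pool.Agent.Helper86.Prog
open scoped Computability

section run

variable {α : Type} {D : Device}

lemma run_of_prog (I : Impl D) (P : Prog ((roDev (Option α)).prod D) Bool) {w : List α} {t : ℕ}
    {b : Bool} {s' : ((roDev (Option α)).prod D).S}
    (h : P.Runs (inputTape w, I.init) t b s') :
    (P.toMachine I).run t ((P.toMachine I).init w) = some b := by
  obtain ⟨t', ht, h⟩ := h
  have := Prog.toMachine_run I P h
  rw [I.init_ok] at this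
  exact Machine.run_mono _ ht this

end run

section pow

variable {α : Type} [Finite α]

/-- input tape, output stack, counter stack -/
abbrev powDev (α : Type) : Device := ioDev α (Option α) (tapeDev (Option Unit))

/-- move everything from the output stack to the counter stack, doubling it -/
def dbl1 : Prog (powDev α) (Option Unit) :=
  (lift (eT α (Option α) (tapeDev (Option Unit))) pop).bind fun o =>
    match o with
    | none => ret (some ())
    | some _ => (lift (eD α (Option α) (tapeDev (Option Unit))) (push ())).seq
        ((lift (eD α (Option α) (tapeDev (Option Unit))) (push ())).seq (ret none))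

/-- move everything back -/
def dbl2 : Prog (powDev α) (Option Unit) :=
  (lift (eD α (Option α) (tapeDev (Option Unit))) pop).bind fun o =>
    match o with
    | none => ret (some ())
    | some _ => (lift (eT α (Option α) (tapeDev (Option Unit))) (push none)).seq (ret none)

lemma dbl1_runs (x : Tape (Option α)) (a : ℕ) : ∀ b : ℕ,
    (loop dbl1).Runs (x, tp [] (List.replicate a (none : Option α)), tp [] (List.replicate b ()))
      (6 * a + 1) () (x, tp [] [], tp [] (List.replicate (b + 2 * a) ())) := by
  induction a with
  | zero =>
    intro b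
    apply loop_exit
    have h1 := liftT_runs (α := α) (D := tapeDev (Option Unit)) (pop_runs_nil (Γ := Option α)) x
      (tp [] (List.replicate b ()))
    have h2 := bind_runs (K := fun o : Option (Option α) =>
      match o with
      | none => ret (some ())
      | some _ => (lift (eD α (Option α) (tapeDev (Option Unit))) (push ())).seq
          ((lift (eD α (Option α) (tapeDev (Option Unit))) (push ())).seq (ret none))) h1
      (ret_runs (some ()) _)
    exact h2.mono (by omega)
  | succ a ih =>
    intro b
    have h1 := liftT_runs (α := α) (D := tapeDev (Option Unit))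
      (pop_runs_cons (none : Option α) (List.replicate a none)) x (tp [] (List.replicate b ()))
    have h2 := liftD_runs (α := α) (β := Option α) (push_runs () (List.replicate b ())) x
      (tp [] (List.replicate a (none : Option α)))
    have h3 := liftD_runs (α := α) (β := Option α) (push_runs () (() :: List.replicate b ())) x
      (tp [] (List.replicate a (none : Option α)))
    have h4 := bind_runs (K := fun o : Option (Option α) =>
      match o with
      | none => ret (some ())
      | some _ => (lift (eD α (Option α) (tapeDev (Option Unit))) (push ())).seq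
          ((lift (eD α (Option α) (tapeDev (Option Unit))) (push ())).seq (ret none))) h1
      (seq_runs h2 (seq_runs h3 (ret_runs (none : Option Unit) _)))
    have h5 := ih (b + 2)
    have e : b + 2 + 2 * a = b + 2 * (a + 1) := by ring
    rw [e] at h5
    exact (loop_again (P := dbl1) h4 h5).mono (by omega)

omit [Finite α] in
lemma dbl2_runs (x : Tape (Option α)) (b : ℕ) : ∀ a : ℕ,
    (loop dbl2).Runs (x, tp [] (List.replicate a (none : Option α)), tp [] (List.replicate b ()))
      (4 * b + 1) () (x, tp [] (List.replicate (a + b) (none : Option α)), tp [] []) := by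
  induction b with
  | zero =>
    intro a
    apply loop_exit
    have h1 := liftD_runs (α := α) (β := Option α) (pop_runs_nil (Γ := Unit)) x
      (tp [] (List.replicate a (none : Option α)))
    have h2 := bind_runs (K := fun o : Option Unit =>
      match o with
      | none => ret (some ())
      | some _ => (lift (eT α (Option α) (tapeDev (Option Unit))) (push none)).seq (ret none)) h1
      (ret_runs (some ()) _)
    exact h2.mono (by omega)
  | succ b ih =>
    intro a
    have h1 := liftD_runs (α := α) (β := Option α) (pop_runs_cons () (List.replicate b ())) x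
      (tp [] (List.replicate a (none : Option α)))
    have h2 := liftT_runs (α := α) (D := tapeDev (Option Unit))
      (push_runs (none : Option α) (List.replicate a none)) x (tp [] (List.replicate b ()))
    have h4 := bind_runs (K := fun o : Option Unit =>
      match o with
      | none => ret (some ())
      | some _ => (lift (eT α (Option α) (tapeDev (Option Unit))) (push none)).seq (ret none)) h1
      (seq_runs h2 (ret_runs (none : Option Unit) _))
    have h5 := ih (a + 1)
    have e : a + 1 + b = a + (b + 1) := by ring
    rw [e] at h5
    exact (loop_again (P := dbl2) h4 h5).mono (by omega)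

/-- double the number of symbols on the output stack -/
def dbl : Prog (powDev α) Unit := (loop dbl1).seq (loop dbl2)

lemma dbl_runs (x : Tape (Option α)) (a : ℕ) :
    dbl.Runs (x, tp [] (List.replicate a (none : Option α)), tp [] [])
      (14 * a + 2) () (x, tp [] (List.replicate (2 * a) (none : Option α)), tp [] []) := by
  have h1 := dbl1_runs x a 0
  have h2 := dbl2_runs x (2 * a) 0
  rw [Nat.zero_add] at h1 h2
  exact (seq_runs h1 h2).mono (by omega)

/-- one letter of the input; every `q` letters the output is doubled -/
def powBody (q : ℕ) (i : Fin (q + 1)) : Prog (powDev α) (Fin (q + 1) ⊕ Unit) :=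
  lookThen (D := powDev α) (fun o => o.1) fun o =>
    match o with
    | none => ret (Sum.inr ())
    | some _ => (lift (eI α (Option α) (tapeDev (Option Unit))) (inR α)).seq
        (if h : i.1 + 1 < q + 1 then ret (Sum.inl ⟨i.1 + 1, h⟩)
          else dbl.seq (ret (Sum.inl 0)))

lemma powBody_none (q : ℕ) (i : Fin (q + 1)) (u : List α) (y : Tape (Option (Option α)))
    (d : Tape (Option Unit)) :
    (powBody q i).Runs (tp u [], y, d) 0 (Sum.inr ()) (tp u [], y, d) := by
  apply lookThen_runs
  have h : ((powDev α).obs (tp u ([] : List α), y, d)).1 = none := tp_zero u []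
  rw [h]
  exact ret_runs _ _

lemma powBody_some1 (q : ℕ) (i : Fin (q + 1)) (x : α) (u v : List α)
    (y : Tape (Option (Option α))) (d : Tape (Option Unit)) (h : i.1 + 1 < q + 1) :
    (powBody q i).Runs (tp u (x :: v), y, d) 1 (Sum.inl ⟨i.1 + 1, h⟩) (tp (x :: u) v, y, d) := by
  apply lookThen_runs
  have h1 : ((powDev α).obs (tp u (x :: v), y, d)).1 = some x := tp_zero u (x :: v)
  have h2 := liftI_runs (β := Option α) (D := tapeDev (Option Unit)) (inR_runs (tp u (x :: v)))
    y d
  rw [tp_right] at h2
  rw [h1]
  show (Prog.seq _ (dite _ _ _)).Runs _ _ _ _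
  rw [dif_pos h]
  exact seq_runs h2 (ret_runs _ _)

lemma powBody_some2 (q : ℕ) (i : Fin (q + 1)) (x : α) (u v : List α) (a : ℕ)
    (h : ¬ i.1 + 1 < q + 1) :
    (powBody q i).Runs (tp u (x :: v), tp [] (List.replicate a (none : Option α)), tp [] [])
      (14 * a + 3) (Sum.inl 0)
      (tp (x :: u) v, tp [] (List.replicate (2 * a) (none : Option α)), tp [] []) := by
  apply lookThen_runs
  have h1 : ((powDev α).obs (tp u (x :: v), tp [] (List.replicate a (none : Option α)),
    tp [] [])).1 = some x := tp_zero u (x :: v)
  have h2 := liftI_runs (β := Option α) (D := tapeDev (Option Unit)) (inR_runs (tp u (x :: v)))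
    (tp [] (List.replicate a (none : Option α))) (tp [] [])
  rw [tp_right] at h2
  rw [h1]
  show (Prog.seq _ (dite _ _ _)).Runs _ _ _ _
  rw [dif_neg h]
  exact (seq_runs h2 (seq_runs (dbl_runs _ a) (ret_runs _ _))).mono (by omega)

lemma pow_runs (q : ℕ) (v : List α) : ∀ (u : List α) (i : Fin (q + 1)) (a : ℕ), 1 ≤ a →
    (loopS (powBody q) i).Runs (tp u v, tp [] (List.replicate a (none : Option α)), tp [] [])
      (16 * (a * 2 ^ ((i.1 + v.length) / (q + 1)) - a) + 3 * v.length) ()
      (tp (v.reverse ++ u) [],
        tp [] (List.replicate (a * 2 ^ ((i.1 + v.length) / (q + 1))) (none : Option α)),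
        tp [] []) := by
  induction v with
  | nil =>
    intro u i a _
    have e : (i.1 + ([] : List α).length) / (q + 1) = 0 := by
      rw [List.length_nil, Nat.add_zero]
      exact Nat.div_eq_of_lt i.2
    rw [e, pow_zero, mul_one]
    apply loopS_exit
    exact (powBody_none q i u _ _).mono (by omega)
  | cons x v ih =>
    intro u i a ha
    have e2 : (x :: v).reverse ++ u = v.reverse ++ x :: u := by simp
    rw [e2]
    by_cases h : i.1 + 1 < q + 1
    · have h1 := powBody_some1 q i x u v (tp [] (List.replicate a (none : Option α))) (tp [] []) h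
      have h2 := ih (x :: u) ⟨i.1 + 1, h⟩ a ha
      have e : i.1 + (x :: v).length = i.1 + 1 + v.length := by
        rw [List.length_cons]; ring
      rw [e]
      refine (loopS_again h1 h2).mono ?_
      rw [List.length_cons]
      show 1 + 1 + (16 * (a * 2 ^ ((i.1 + 1 + v.length) / (q + 1)) - a) + 3 * v.length) ≤ _
      omega
    · have h1 := powBody_some2 q i x u v a h
      have h2 := ih (x :: u) 0 (2 * a) (by omega)
      have e : (i.1 + (x :: v).length) / (q + 1) = (0 + v.length) / (q + 1) + 1 := by
        have hi := i.2
        have e3 : i.1 + (x :: v).length = 0 + v.length + (q + 1) := by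
          rw [List.length_cons]; omega
        rw [e3, Nat.add_div_right _ (Nat.succ_pos q)]
      have e4 : a * 2 ^ ((0 + v.length) / (q + 1) + 1) = 2 * a * 2 ^ ((0 + v.length) / (q + 1)) := by
        rw [pow_succ]; ring
      rw [e, e4]
      refine (loopS_again h1 h2).mono ?_
      rw [List.length_cons]
      show 14 * a + 3 + 1 + (16 * (2 * a * 2 ^ ((0 + v.length) / (q + 1)) - 2 * a) +
        3 * v.length) ≤ _
      have h3 : 2 * a ≤ 2 * a * 2 ^ ((0 + v.length) / (q + 1)) :=
        Nat.le_mul_of_pos_right _ (by positivity)
      omega

/-- the program that writes the padded input -/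
def powProg (q : ℕ) : Prog (powDev α) Unit :=
  (lift (eT α (Option α) (tapeDev (Option Unit))) (push none)).seq
    ((loopS (powBody q) 0).seq (passL (fun x => [some x])))

lemma powProg_runs (q : ℕ) (w : List α) :
    (powProg q).Runs (tp [] w, tp [] [], tp [] []) (16 * 2 ^ (w.length / (q + 1)) +
      7 * w.length + 4) ()
      (tp [] w, tp [] (w.map some ++ List.replicate (2 ^ (w.length / (q + 1))) none), tp [] []) := by
  have h1 := liftT_runs (α := α) (D := tapeDev (Option Unit)) (push_runs (none : Option α) [])
    (tp [] w) (tp [] [])
  have h2 := pow_runs q w [] 0 1 le_rfl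
  have h3 := passL_runs (α := α) (β := Option α) (D := tapeDev (Option Unit))
    (fun x => [some x]) 1 (by simp) w.reverse []
    (List.replicate (1 * 2 ^ (((0 : Fin (q + 1)).1 + w.length) / (q + 1))) (none : Option α))
    (tp [] [])
  rw [List.append_nil] at h2
  have e1 : ((0 : Fin (q + 1)).1 + w.length) / (q + 1) = w.length / (q + 1) := by
    show (0 + w.length) / (q + 1) = _
    rw [Nat.zero_add]
  have e2 : (w.reverse.flatMap fun x => [some x]).reverse = w.map some := by
    rw [flatMap_some, List.map_reverse, List.reverse_reverse]
  rw [e1, one_mul] at h2 h3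
  rw [e2, List.reverse_reverse, List.append_nil, List.length_reverse] at h3
  exact (seq_runs h1 (seq_runs h2 h3)).mono (by omega)

end pow

section machine

variable {α : Type} [Finite α]

/-- A language whose words, padded to exponential length, are recognised in linear time. -/
theorem expTime_of_padded (q : ℕ) {L : Language α} {L' : Language (Option α)}
    (hL' : LINTIME L')
    (h : ∀ w : List α, (w.map some ++ List.replicate (2 ^ (w.length / (q + 1))) none ∈ L' ↔
      w ∈ L)) : ExpTime (q + 1) L := by
  obtain ⟨M, c, hM⟩ := hL'
  have := M.finι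
  have := M.finΓ
  let P : Prog (ioDev α Empty ((tapeDev (Option (Option α))).prod
      ((tapeDev (Option Unit)).prod (workDev M.Γ)))) Bool :=
    (lift (lensA α (Option α) Empty (tapeDev (Option Unit)) (workDev M.Γ)) (powProg q)).seq
      (lift (lensM α (Option α) Empty (tapeDev (Option Unit)) (workDev M.Γ)) M.prog)
  let I : Impl ((tapeDev (Option Empty)).prod
      ((tapeDev (Option (Option α))).prod ((tapeDev (Option Unit)).prod (workDev M.Γ)))) :=
    (Impl.tape (Option Empty) none).prod
      ((Impl.tape (Option (Option α)) none).prod ((Impl.tape (Option Unit) none).prod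
        (Impl.work M.Γ M.blank)))
  set C := 16 + 7 * (q + 1) + 4 + c * ((q + 1) + 2) with hC
  have key : ∀ (w : List α) b, M.run (c * ((w.map some ++ List.replicate
      (2 ^ (w.length / (q + 1))) none : List (Option α)).length + 1))
      (M.init (w.map some ++ List.replicate (2 ^ (w.length / (q + 1))) none)) = some b →
      ∃ s', P.Runs (inputTape w, I.init) (C * 2 ^ (w.length / (q + 1))) b s' := by
    intro w b hb
    obtain ⟨s', hs'⟩ := M.prog_runs hb
    have h₁ := powProg_runs q w
    have e : (Impl.tape (Option (Option α)) none).init = tp [] [] := by rw [tp_nil]; rfl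
    have e' : (Impl.tape (Option Unit) none).init = tp [] [] := by rw [tp_nil]; rfl
    have h₁' := lift_runs (lensA α (Option α) Empty (tapeDev (Option Unit)) (workDev M.Γ))
      (s := (tp [] w, (Impl.tape (Option Empty) none).init,
        (tp [] [], (tp [] [], fun i _ => M.blank i)))) h₁
    rw [inputTape_eq] at hs'
    have h₂' := lift_runs (lensM α (Option α) Empty (tapeDev (Option Unit)) (workDev M.Γ))
      (s := (tp [] w, (Impl.tape (Option Empty) none).init,
        (tp [] (w.map some ++ List.replicate (2 ^ (w.length / (q + 1))) none),
          (tp [] [], fun i _ => M.blank i)))) hs'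
    have h₃ := (seq_runs h₁' h₂').mono (t' := C * 2 ^ (w.length / (q + 1))) (by
      rw [List.length_append, List.length_map, List.length_replicate]
      set k := w.length / (q + 1) with hk
      have h5 : w.length < (q + 1) * (k + 1) := by
        have := Nat.lt_mul_div_succ w.length (show 0 < q + 1 by omega)
        rwa [← hk] at this
      have h6 : k + 1 ≤ 2 ^ k := Nat.lt_two_pow_self
      have h7 : w.length ≤ (q + 1) * 2 ^ k :=
        h5.le.trans (Nat.mul_le_mul_left _ h6)
      have h8 : 1 ≤ 2 ^ k := Nat.one_le_two_pow
      have h9 : w.length + 2 ^ k + 1 ≤ ((q + 1) + 2) * 2 ^ k := by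
        rw [add_mul]
        omega
      have h10 := Nat.mul_le_mul_left c h9
      have h11 : C * 2 ^ k = 16 * 2 ^ k + 7 * ((q + 1) * 2 ^ k) + 4 * 2 ^ k +
          c * (((q + 1) + 2) * 2 ^ k) := by
        rw [hC]; ring
      rw [h11]
      omega)
    rw [← e, ← e', ← inputTape_eq] at h₃
    exact ⟨_, h₃⟩
  refine ⟨P.toMachine I, C, fun w => ⟨fun hw => ?_, fun hw => ?_⟩⟩
  · obtain ⟨s', hs⟩ := key w true ((hM _).1 ((h w).2 hw))
    exact run_of_prog I P hs
  · obtain ⟨s', hs⟩ := key w false ((hM _).2 (fun h' => hw ((h w).1 h')))
    exact run_of_prog I P hs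

end machine

end Pool.Agent.Helper95.LT
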