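import Pool.Agent.Helper95.LT.Hard
import Pool.Agent.Helper95.LT.Easy

/-!
# Regular languages with unbounded chains of prefixes
-/

namespace Pool.Agent.Helper95.LT

open Pool.Agent.Helper86 Pool.Agent.Helper86.Prog
open scoped Computability

variable {α : Type}

lemma finSuffixFree_iff (R : Language α) : FinSuffixFree R ↔ FinPrefixFree R.reverse := by
  constructor
  · rintro ⟨n, C, hC, hR⟩
    refine ⟨n, fun i => (C i).reverse, fun i u hu v hv huv => ?_, fun w => hR w.reverse⟩
    exact List.reverse_injective (hC i _ hu _ hv (List.reverse_suffix.2 huv))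
  · rintro ⟨n, C, hC, hR⟩
    refine ⟨n, fun i => (C i).reverse, fun i u hu v hv huv => ?_, fun w => ?_⟩
    · exact List.reverse_injective (hC i _ hu _ hv (List.reverse_prefix.2 huv))
    · have h := hR w.reverse
      rw [Language.mem_reverse, List.reverse_reverse] at h
      exact h

lemma pump {R : Language α} (hR : R.IsRegular) (h : ¬ FinPrefixFree R) :
    ∃ x y : List α, y ≠ [] ∧ ∀ t, x ++ (List.replicate t y).flatten ∈ R := by
  classical
  obtain ⟨σ, _, M, rfl⟩ := hR
  have h1 : ¬ BddChains M.accepts (Fintype.card σ) := fun hb => h hb.fin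
  unfold BddChains at h1
  push Not at h1
  obtain ⟨w, S, hS, hcard⟩ := h1
  obtain ⟨u, hu, v, hv, huv, heq⟩ := Finset.exists_ne_map_eq_of_card_lt_of_maps_to
    (s := S) (t := Finset.univ) (f := M.eval) (by simpa using hcard)
    (fun u _ => Finset.mem_univ _)
  have key : ∀ u v : List α, u ∈ M.accepts → u ≠ v → M.eval u = M.eval v → u <+: v →
      ∃ x y : List α, y ≠ [] ∧ ∀ t, x ++ (List.replicate t y).flatten ∈ M.accepts := by
    rintro u v hu huv heq ⟨y, rfl⟩
    refine ⟨u, y, ?_, fun t => ?_⟩
    · rintro rfl
      exact huv (List.append_nil u).symm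
    · have h2 : M.evalFrom (M.eval u) y = M.eval u :=
        (DFA.evalFrom_of_append M _ _ _).symm.trans heq.symm
      have h3 : ∀ t, M.evalFrom (M.eval u) (List.replicate t y).flatten = M.eval u := by
        intro t
        induction t with
        | zero => rfl
        | succ t ih =>
          rw [List.replicate_succ, List.flatten_cons, DFA.evalFrom_of_append, h2, ih]
      show M.eval (u ++ (List.replicate t y).flatten) ∈ M.accept
      have h4 : M.eval (u ++ (List.replicate t y).flatten) =
          M.evalFrom (M.eval u) (List.replicate t y).flatten := DFA.evalFrom_of_append M _ _ _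
      rw [h4, h3]
      exact hu
  rcases List.prefix_or_prefix_of_prefix (hS u hu).1 (hS v hv).1 with h2 | h2
  · exact key u v (hS u hu).2 huv heq h2
  · exact key v u (hS v hv).2 huv.symm heq.symm h2

lemma REALTIME_of_regular {R : Language α} (hR : R.IsRegular) : REALTIME R := by
  obtain ⟨σ, _, M, rfl⟩ := hR
  exact REALTIME_of_fold M.start M.step M.accept

lemma LINTIME.reverse [Finite α] {L : Language α} (hL : LINTIME L) : LINTIME L.reverse :=
  LINTIME.preimage LinFun.reverse hL

lemma reverse_mul3 (R L S : Language α) :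
    (R * L * S).reverse = S.reverse * L.reverse * R.reverse := by
  rw [Language.reverse_mul, Language.reverse_mul, mul_assoc]

/-- finite unions -/
lemma LINTIME.iUnion [Finite α] {n : ℕ} : ∀ (L : Fin n → Language α), (∀ i, LINTIME (L i)) →
    LINTIME ({w | ∃ i, w ∈ L i} : Language α) := by
  induction n with
  | zero =>
    intro L _
    refine LINTIME.congr (fun w => ?_) LINTIME_empty
    constructor
    · intro h; exact h.elim
    · rintro ⟨i, _⟩; exact i.elim0
  | succ n ih =>
    intro L hL
    have h1 := ih (fun i => L i.succ) (fun i => hL i.succ)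
    refine LINTIME.congr (fun w => ?_) (LINTIME.union (hL 0) h1)
    constructor
    · rintro (h | ⟨i, hi⟩)
      · exact ⟨0, h⟩
      · exact ⟨i.succ, hi⟩
    · rintro ⟨i, hi⟩
      revert hi
      refine Fin.cases ?_ (fun j => ?_) i
      · intro hi
        exact Or.inl hi
      · intro hi
        exact Or.inr ⟨j, hi⟩

/-- If one of the left factors is not a finite union of prefix-free languages (and its right factor
is not empty) then the operation is hard. -/
theorem hard_left [Finite α] [Nontrivial α] {n : ℕ} (R S : Fin n → Language α)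
    (hR : ∀ i, (R i).IsRegular) (i : Fin n) (h1 : ¬ FinPrefixFree (R i)) (h2 : S i ≠ 0)
    (H : ∀ P : Language α, REALTIME P → LINTIME ({w | ∃ i, w ∈ R i * P * S i} : Language α)) :
    ConcatClosed := by
  obtain ⟨x, y, hy, hxy⟩ := pump (hR i) h1
  obtain ⟨r, hr⟩ : ∃ r, r ∈ S i := by
    by_contra h3
    push Not at h3
    apply h2
    ext w
    exact ⟨fun h4 => absurd h4 (h3 w), fun h4 => absurd h4 (Language.notMem_zero w)⟩
  intro β _ L₁ L₂ hL₁ hL₂
  refine concat_of_star (fun γ _ a P hP => ?_) hL₁ hL₂
  refine hard (fun u s => ∃ i, u ∈ R i ∧ s ∈ S i) x y r hy (fun t => ⟨i, hxy t, hr⟩)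
    (fun P hP => ?_) γ a P hP
  refine LINTIME.congr (fun w => ?_) (H P hP)
  constructor
  · rintro ⟨i, hi⟩
    obtain ⟨uv, huv, s, hs, rfl⟩ := Language.mem_mul.1 hi
    obtain ⟨u, hu, v, hv, rfl⟩ := Language.mem_mul.1 huv
    exact ⟨u, v, s, ⟨i, hu, hs⟩, hv, List.append_assoc _ _ _⟩
  · rintro ⟨u, v, s, ⟨i, hu, hs⟩, hv, rfl⟩
    refine ⟨i, ?_⟩
    rw [← List.append_assoc]
    exact Language.append_mem_mul (Language.append_mem_mul hu hv) hs

theorem hard_right [Finite α] [Nontrivial α] {n : ℕ} (R S : Fin n → Language α)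
    (hS : ∀ i, (S i).IsRegular) (i : Fin n) (h1 : ¬ FinSuffixFree (S i)) (h2 : R i ≠ 0)
    (H : ∀ L : Language α, LINTIME L → LINTIME ({w | ∃ i, w ∈ R i * L * S i} : Language α)) :
    ConcatClosed := by
  rw [finSuffixFree_iff] at h1
  refine hard_left (fun i => (S i).reverse) (fun i => (R i).reverse) (fun i => (hS i).reverse) i h1
    ?_ ?_
  · intro h3
    apply h2
    have h4 : (R i).reverse.reverse = (0 : Language α).reverse := by rw [h3]
    rw [Language.reverse_reverse, Language.reverse_zero] at h4
    exact h4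
  · intro P hP
    have h3 := LINTIME.reverse (H P.reverse (LINTIME.reverse hP.lintime))
    refine LINTIME.congr (fun w => ?_) h3
    constructor
    · rintro ⟨i, hi⟩
      refine ⟨i, ?_⟩
      have h4 : w ∈ (R i * P.reverse * S i).reverse := hi
      rw [reverse_mul3, Language.reverse_reverse] at h4
      exact h4
    · rintro ⟨i, hi⟩
      refine ⟨i, ?_⟩
      show w ∈ (R i * P.reverse * S i).reverse
      rw [reverse_mul3, Language.reverse_reverse]
      exact hi

/-- The unconditional direction. -/
theorem easy_side [Finite α] {R S : Language α} (hR : REALTIME R) (hS : REALTIME S.reverse)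
    (h : R = 0 ∨ S = 0 ∨ (FinPrefixFree R ∧ FinSuffixFree S)) {L : Language α}
    (hL : LINTIME L) : LINTIME (R * L * S) := by
  rcases h with rfl | rfl | ⟨h1, h2⟩
  · refine LINTIME.congr (fun w => ?_) LINTIME_empty
    constructor
    · intro h; exact h.elim
    · intro h
      obtain ⟨uv, huv, s, hs, rfl⟩ := Language.mem_mul.1 h
      obtain ⟨u, hu, v, hv, rfl⟩ := Language.mem_mul.1 huv
      exact Language.notMem_zero u hu
  · refine LINTIME.congr (fun w => ?_) LINTIME_empty
    constructor
    · intro h; exact h.elim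
    · intro h
      obtain ⟨uv, huv, s, hs, rfl⟩ := Language.mem_mul.1 h
      exact Language.notMem_zero s hs
  · obtain ⟨k, hk⟩ := h1.bdd
    rw [finSuffixFree_iff] at h2
    obtain ⟨k', hk'⟩ := h2.bdd
    have h3 := easy k R hR hk L hL
    have h4 := LINTIME.reverse (easy k' S.reverse hS hk' (R * L).reverse (LINTIME.reverse h3))
    rw [← Language.reverse_mul, Language.reverse_reverse] at h4
    exact h4

end Pool.Agent.Helper95.LT
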