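import Pool.Agent.Helper95.LT.Ops

/-!
# The star of real-time languages
-/

namespace Pool.Agent.Helper95.LT

open Pool.Agent.Helper86 Pool.Agent.Helper86.Prog
open scoped Computability

section star

variable {β : Type}

/-- The words over the letter `a`, and the words of `P` with at least one symbol `none` inserted. -/
def starLang (a : β) (P : Language β) : Language (Option β) :=
  {x | (∀ y ∈ x, y = some a) ∨ (none ∈ x ∧ del x ∈ P)}

open Classical in
/-- the states -/
noncomputable def starF (a : β) (s : Bool × Bool) (z : Option β) : Bool × Bool :=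
  (s.1 || z.isNone, s.2 && decide (z = some a))

open Classical in
lemma starF_fold (a : β) (x : List (Option β)) : ∀ s : Bool × Bool,
    x.foldl (starF a) s = (s.1 || decide (none ∈ x), s.2 && decide (∀ y ∈ x, y = some a)) := by
  induction x with
  | nil => intro s; simp
  | cons z x ih =>
    intro s
    rw [List.foldl_cons, ih]
    refine Prod.ext ?_ ?_
    · show (s.1 || z.isNone || decide (none ∈ x)) = (s.1 || decide (none ∈ z :: x))
      rcases z with _ | z <;> simp
    · show (s.2 && decide (z = some a) && decide (∀ y ∈ x, y = some a)) =
        (s.2 && decide (∀ y ∈ z :: x, y = some a))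
      rw [Bool.and_assoc, ← Bool.decide_and]
      simp

lemma starLang_REALTIME (a : β) {P : Language β} (hP : REALTIME P) :
    REALTIME (starLang a P) := by
  classical
  have h := REALTIME.transC (starF a) (fun _ z => z) (false, true)
    (fun s p => s = (false, true) ∨ (s.1 = true ∧ p)) hP
  refine REALTIME.congr (fun x => ?_) h
  have h2 : ∀ (w : List (Option β)) (s : Bool × Bool),
      oout (starF a) (fun _ z => z) s w = del w := by
    intro w
    induction w with
    | nil => intro s; rfl
    | cons b w ih =>
      intro s
      rw [oout, ih]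
      rfl
  show (x.foldl (starF a) (false, true) = (false, true) ∨
    ((x.foldl (starF a) (false, true)).1 = true ∧
      oout (starF a) (fun _ z => z) (false, true) x ∈ P)) ↔ _
  rw [starF_fold, h2]
  simp only [Bool.false_or, Bool.true_and, Prod.mk.injEq, decide_eq_false_iff_not,
    decide_eq_true_eq]
  constructor
  · rintro (⟨_, h3⟩ | h3)
    · exact Or.inl h3
    · exact Or.inr h3
  · rintro (h3 | h3)
    · refine Or.inl ⟨fun h4 => ?_, h3⟩
      exact absurd (h3 none h4) (by simp)
    · exact Or.inr h3

lemma del_end (w : List β) : del (w.map some ++ [none]) = w := by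
  unfold del
  rw [List.flatMap_append, del_map_some']
  exact List.append_nil w

lemma star_to (a : β) (P : Language β) (L : List (List (Option β))) : ∀ w : List β,
    w.map some ++ [none] = L.flatten → (∀ y ∈ L, y ∈ starLang a P) →
    w ∈ ({[a]} : Language β)∗ * P := by
  induction L with
  | nil =>
    intro w h _
    simp at h
  | cons y L ih =>
    intro w h hL
    rw [List.flatten_cons] at h
    have hy := hL y List.mem_cons_self
    rcases split_end h with ⟨_, rfl⟩ | ⟨p', q', rfl, rfl, h3⟩
    · rcases hy with h4 | ⟨_, h4⟩
      · exact absurd (h4 none (by simp)) (by simp)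
      · rw [del_end] at h4
        refine Language.mem_mul.2 ⟨[], Language.nil_mem_kstar _, w, h4, rfl⟩
    · have h4 := ih q' h3.symm fun z hz => hL z (List.mem_cons_of_mem _ hz)
      obtain ⟨s, hs, p, hp, rfl⟩ := Language.mem_mul.1 h4
      refine Language.mem_mul.2 ⟨p' ++ s, ?_, p, hp, List.append_assoc _ _ _⟩
      rw [mem_kstar_singleton] at hs ⊢
      intro x hx
      rcases List.mem_append.1 hx with hx | hx
      · rcases hy with h5 | ⟨h5, _⟩
        · exact Option.some.inj (h5 (some x) (List.mem_map_of_mem hx))
        · rw [List.mem_map] at h5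
          obtain ⟨z, _, hz⟩ := h5
          exact absurd hz (by simp)
      · exact hs x hx

/-- If the star of every real-time language is in `LINTIME` then `LINTIME` is closed under
concatenation. -/
theorem concat_of_kstar
    (h : ∀ (β : Type) [Finite β] (P : Language β), REALTIME P → LINTIME (P∗)) :
    ConcatClosed := by
  intro α _ L₁ L₂ h₁ h₂
  refine concat_of_star (fun β _ a P hP => ?_) h₁ h₂
  have a2 := LINTIME.preimage (LinFun.endMark (α := β)) (h _ _ (starLang_REALTIME a hP))
  refine LINTIME.congr (fun w => ?_) a2
  show (w.flatMap fun x => [some x]) ++ [(none : Option β)] ∈ (starLang a P)∗ ↔ _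
  rw [flatMap_some]
  constructor
  · intro h1
    obtain ⟨L, h2, h3⟩ := Language.mem_kstar.1 h1
    exact star_to a P L w h2 h3
  · intro h1
    obtain ⟨s, hs, p, hp, rfl⟩ := Language.mem_mul.1 h1
    rw [mem_kstar_singleton] at hs
    rw [Language.mem_kstar]
    refine ⟨[s.map some, p.map some ++ [none]], by simp, ?_⟩
    intro y hy
    rcases List.mem_cons.1 hy with rfl | hy
    · left
      intro z hz
      rw [List.mem_map] at hz
      obtain ⟨x, hx, rfl⟩ := hz
      rw [hs x hx]
    · rw [List.mem_singleton] at hy
      subst hy
      right
      refine ⟨by simp, ?_⟩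
      rw [del_end]
      exact hp

end star

end Pool.Agent.Helper95.LT
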