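import Pool.Agent.Helper95.LT.Regular
import Pool.Agent.Helper86.TMGuess

/-!
# Tools: more closure properties, and the choice of a cut
-/

namespace Pool.Agent.Helper95.LT

open Pool.Agent.Helper86 Pool.Agent.Helper86.Prog
open scoped Computability

section trans

variable {α β σ : Type}

/-- `REALTIME.trans` with an arbitrary combination of the last state and the membership of the
output. -/
theorem REALTIME.transC [Finite σ] (f : σ → α → σ) (g : σ → α → Option β) (s₀ : σ)
    (C : σ → Prop → Prop) {P : Language β} (hP : REALTIME P) :
    REALTIME ({w : List α | C (w.foldl f s₀) (oout f g s₀ w ∈ P)} : Language α) := by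
  obtain ⟨M, rfl⟩ := hP
  refine ⟨{ transMachine f g s₀ ∅ M with acc := {q | C q.1 (q.2 ∈ M.acc)} }, ?_⟩
  ext w
  have h := transMachine_fold f g s₀ ∅ M w s₀ (M.start, fun i _ => M.blank i)
  show C (w.foldl (transMachine f g s₀ ∅ M).step ((s₀, M.start), fun i _ => M.blank i)).1.1
    ((w.foldl (transMachine f g s₀ ∅ M).step ((s₀, M.start), fun i _ => M.blank i)).1.2 ∈
      M.acc) ↔ _
  have h' : w.foldl (transMachine f g s₀ ∅ M).step ((s₀, M.start), fun i _ => M.blank i) =
      ((w.foldl f s₀, ((oout f g s₀ w).foldl M.step (M.start, fun i _ => M.blank i)).1),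
        ((oout f g s₀ w).foldl M.step (M.start, fun i _ => M.blank i)).2) := h
  rw [h']
  rfl

lemma tout_eq_oout (f : σ → α → σ) (g : σ → α → Option β) (w : List α) : ∀ s,
    tout f (fun s x => (g s x).toList) (fun _ => []) s w = oout f g s w := by
  induction w with
  | nil => intro s; rfl
  | cons x w ih =>
    intro s
    rw [tout, oout, ih]

lemma LinFun.oout [Finite α] [Finite β] [Finite σ] (f : σ → α → σ) (g : σ → α → Option β)
    (s : σ) : LinFun (fun w => oout f g s w) := by
  have h := LinFun.fst f (fun s x => (g s x).toList) (fun _ => []) s
  have e : (fun w => tout f (fun s x => (g s x).toList) (fun _ => []) s w) =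
      fun w => Pool.Agent.Helper95.LT.oout f g s w := funext fun w => tout_eq_oout f g w s
  rwa [e] at h

theorem LINTIME.compl [Finite α] {L : Language α} (hL : LINTIME L) :
    LINTIME ({w | w ∉ L} : Language α) :=
  LINTIME.bool (fun a _ => !a) hL hL (by
    intro w b₁ b₂ h1 _
    show (!b₁) = true ↔ w ∉ L
    rw [← h1]
    simp)

end trans

section cut

variable {α : Type}

/-- The word `w` with its first `j` letters marked. -/
def mk (j : ℕ) (w : List α) : List (α × Bool) :=
  (w.take j).map (fun x => (x, true)) ++ (w.drop j).map (fun x => (x, false))

lemma marked_eq_mk (j : ℕ) (w : List α) : marked j w = (mk j w).map some := by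
  unfold marked mk
  rw [List.map_append, List.map_map, List.map_map]
  rfl

/-- the marked letters -/
def getT (x : α × Bool) : List α := if x.2 then [x.1] else []

/-- the unmarked letters -/
def getF (x : α × Bool) : List α := if x.2 then [] else [x.1]

lemma mk_getT (j : ℕ) (w : List α) : (mk j w).flatMap getT = w.take j := by
  have h1 : ∀ l : List α, (l.map fun x => (x, true)).flatMap getT = l := by
    intro l
    induction l with
    | nil => rfl
    | cons x l ih => rw [List.map_cons, List.flatMap_cons, ih]; rfl
  have h2 : ∀ l : List α, (l.map fun x => (x, false)).flatMap getT = [] := by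
    intro l
    induction l with
    | nil => rfl
    | cons x l ih => rw [List.map_cons, List.flatMap_cons, ih]; rfl
  rw [mk, List.flatMap_append, h1, h2, List.append_nil]

lemma mk_getF (j : ℕ) (w : List α) : (mk j w).flatMap getF = w.drop j := by
  have h1 : ∀ l : List α, (l.map fun x => (x, true)).flatMap getF = [] := by
    intro l
    induction l with
    | nil => rfl
    | cons x l ih => rw [List.map_cons, List.flatMap_cons, ih]; rfl
  have h2 : ∀ l : List α, (l.map fun x => (x, false)).flatMap getF = l := by
    intro l
    induction l with
    | nil => rfl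
    | cons x l ih => rw [List.map_cons, List.flatMap_cons, ih]; rfl
  rw [mk, List.flatMap_append, h1, h2, List.nil_append]

/-- If `LINTIME` is closed under concatenation then it is closed under the choice of a cut. -/
theorem cut (h : ConcatClosed) [Finite α] {S : Language (α × Bool)} (hS : LINTIME S) :
    LINTIME ({w : List α | ∃ j ≤ w.length, mk j w ∈ S} : Language α) := by
  have a1 : LINTIME {m : List (Option (α × Bool)) | ∀ y ∈ m, y ≠ none} :=
    (REALTIME_forall (fun y => y ≠ none)).lintime
  have a2 : LINTIME {m : List (Option (α × Bool)) | m.flatMap Option.toList ∈ S} :=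
    LINTIME.preimage (LinFun.flatMap Option.toList) hS
  have a3 := LINTIME.preimage LinFun.mark (a1.inter a2)
  have a4 := h _ _ _ (REALTIME_kstar_singleton (none : Option (Option α))).lintime a3
  have hf : LinFun (fun w : List α => (w.flatMap fun _ => [(none : Option (Option α))]) ++
      ([some none] ++ (w.flatMap fun x => [(some (some x) : Option (Option α))]))) :=
    (LinFun.flatMap _).append ((LinFun.const _).append (LinFun.flatMap _))
  refine LINTIME.congr (fun w => ?_) (LINTIME.preimage hf a4)
  have e1 : (w.flatMap fun _ => [(none : Option (Option α))]) = List.replicate w.length none := by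
    have := flatMap_const w (none : Option (Option α)) 1
    rwa [List.replicate_one, one_mul] at this
  have e2 : (w.flatMap fun x => [(some (some x) : Option (Option α))]) = lett w := by
    clear e1
    induction w with
    | nil => rfl
    | cons x w ih => rw [List.flatMap_cons, ih]; rfl
  show (w.flatMap fun _ => [(none : Option (Option α))]) ++
      ([some none] ++ (w.flatMap fun x => [(some (some x) : Option (Option α))])) ∈
      ({[none]} : Language (Option (Option α)))∗ * _ ↔ _
  rw [e1, e2, List.singleton_append, mem_star_mul none (some none) (by simp)]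
  refine exists_congr fun k => and_congr_right fun hk => ?_
  have e3 : mark (List.replicate k none ++ some none :: lett w) = (mk k w).map some := by
    unfold mark
    rw [markTop_ticks, Nat.zero_add, markR_lett w k hk, marked_eq_mk]
  show ((∀ y ∈ mark (List.replicate k none ++ some none :: lett w), y ≠ none) ∧
    (mark (List.replicate k none ++ some none :: lett w)).flatMap Option.toList ∈ S) ↔ _
  rw [e3, del_map_some']
  constructor
  · rintro ⟨_, h1⟩
    exact h1
  · intro h1
    refine ⟨?_, h1⟩
    intro y hy
    rw [List.mem_map] at hy
    obtain ⟨x, _, rfl⟩ := hy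
    simp

end cut

section marked

variable {α : Type}

/-- the letters before the first `none` -/
def befF (s : Bool) (x : Option α) : Bool := s || x.isNone
def befG (s : Bool) (x : Option α) : Option α := if s then none else x
def aftG (s : Bool) (x : Option α) : Option α := if s then x else none

lemma bef_true (z : List (Option α)) : oout befF befG true z = [] := by
  induction z with
  | nil => rfl
  | cons x z ih =>
    rw [oout]
    have e : befF true x = true := rfl
    rw [e, ih]
    rfl

lemma aft_true (w : List α) : oout befF aftG true (w.map some) = w := by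
  induction w with
  | nil => rfl
  | cons x w ih =>
    rw [List.map_cons, oout]
    have e : befF true (some x) = true := rfl
    rw [e, ih]
    rfl

lemma bef_spec (u : List α) (z : List (Option α)) :
    oout befF befG false (u.map some ++ none :: z) = u := by
  induction u with
  | nil =>
    rw [List.map_nil, List.nil_append, oout]
    have e : befF false (none : Option α) = true := rfl
    rw [e, bef_true]
    rfl
  | cons x u ih =>
    rw [List.map_cons, List.cons_append, oout]
    have e : befF false (some x) = false := rfl
    rw [e, ih]
    rfl

lemma aft_spec (u v : List α) :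
    oout befF aftG false (u.map some ++ none :: v.map some) = v := by
  induction u with
  | nil =>
    rw [List.map_nil, List.nil_append, oout]
    have e : befF false (none : Option α) = true := rfl
    rw [e, aft_true]
    rfl
  | cons x u ih =>
    rw [List.map_cons, List.cons_append, oout]
    have e : befF false (some x) = false := rfl
    rw [e, ih]
    rfl

/-- the number of symbols `none`, at most `2` -/
def cntF (s : Fin 3) (x : Option α) : Fin 3 := if x.isNone then (if s = 0 then 1 else 2) else s

lemma cnt_some (w : List α) (s : Fin 3) : (w.map some).foldl cntF s = s := by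
  induction w with
  | nil => rfl
  | cons x w ih =>
    rw [List.map_cons, List.foldl_cons]
    have e : cntF s (some x) = s := rfl
    rw [e, ih]

lemma cnt_ge (z : List (Option α)) : ∀ s : Fin 3, s ≠ 0 → z.foldl cntF s = 1 →
    s = 1 ∧ ∃ v : List α, z = v.map some := by
  induction z with
  | nil =>
    intro s _ h
    exact ⟨h, [], rfl⟩
  | cons x z ih =>
    intro s hs h
    rw [List.foldl_cons] at h
    rcases x with _ | x
    · have e : cntF s (none : Option α) = 2 := by
        simp [cntF, hs]
      rw [e] at h
      have := (ih 2 (by decide) h).1
      exact absurd this (by decide)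
    · have e : cntF s (some x) = s := rfl
      rw [e] at h
      obtain ⟨h1, v, h2⟩ := ih s hs h
      exact ⟨h1, x :: v, by rw [h2]; rfl⟩

lemma cnt_one (z : List (Option α)) : z.foldl cntF 0 = 1 →
    ∃ u v : List α, z = u.map some ++ none :: v.map some := by
  induction z with
  | nil => intro h; exact absurd h (by simp)
  | cons x z ih =>
    intro h
    rw [List.foldl_cons] at h
    rcases x with _ | x
    · have e : cntF 0 (none : Option α) = 1 := rfl
      rw [e] at h
      obtain ⟨_, v, h2⟩ := cnt_ge z 1 (by decide) h
      exact ⟨[], v, by rw [h2]; rfl⟩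
    · have e : cntF 0 (some x) = 0 := rfl
      rw [e] at h
      obtain ⟨u, v, h1⟩ := ih h
      exact ⟨x :: u, v, by rw [h1]; rfl⟩

/-- Marked concatenation. -/
theorem LINTIME.markedConcat [Finite α] {L₁ L₂ : Language α} (h₁ : LINTIME L₁)
    (h₂ : LINTIME L₂) :
    LINTIME ({z | ∃ u ∈ L₁, ∃ v ∈ L₂, z = u.map some ++ none :: v.map some} :
      Language (Option α)) := by
  have a1 : LINTIME ({z : List (Option α) | z.foldl cntF (0 : Fin 3) ∈ ({1} : Set (Fin 3))} :
      Language (Option α)) :=
    (REALTIME_of_fold (0 : Fin 3) cntF {1}).lintime
  have a2 := LINTIME.preimage (LinFun.oout (α := Option α) befF befG false) h₁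
  have a3 := LINTIME.preimage (LinFun.oout (α := Option α) befF aftG false) h₂
  refine LINTIME.congr (fun z => ?_) (a1.inter (a2.inter a3))
  constructor
  · rintro ⟨h1, h2, h3⟩
    obtain ⟨u, v, rfl⟩ := cnt_one z h1
    have h2' : oout befF befG false (u.map some ++ none :: v.map some) ∈ L₁ := h2
    have h3' : oout befF aftG false (u.map some ++ none :: v.map some) ∈ L₂ := h3
    rw [bef_spec] at h2'
    rw [aft_spec] at h3'
    exact ⟨u, h2', v, h3', rfl⟩
  · rintro ⟨u, hu, v, hv, rfl⟩
    refine ⟨?_, ?_, ?_⟩
    · show (u.map some ++ none :: v.map some).foldl cntF 0 ∈ ({1} : Set (Fin 3))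
      rw [List.foldl_append, cnt_some, List.foldl_cons]
      have e : cntF 0 (none : Option α) = 1 := rfl
      rw [e, cnt_some]
      exact Set.mem_singleton _
    · show oout befF befG false (u.map some ++ none :: v.map some) ∈ L₁
      rw [bef_spec]
      exact hu
    · show oout befF aftG false (u.map some ++ none :: v.map some) ∈ L₂
      rw [aft_spec]
      exact hv

/-- A word with exactly one `none` is cut in a unique way. -/
lemma marked_unique {u v u' v' : List α}
    (h : u.map some ++ none :: v.map some = u'.map some ++ none :: v'.map some) :
    u = u' ∧ v = v' := by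
  have h1 := congrArg (oout befF befG false) h
  have h2 := congrArg (oout befF aftG false) h
  rw [bef_spec, bef_spec] at h1
  rw [aft_spec, aft_spec] at h2
  exact ⟨h1, h2⟩

end marked

end Pool.Agent.Helper95.LT
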