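import Pool.Agent.Helper86.TMRealtime

/-!
# Functions computed by real-time transducers

A real-time machine with an output word for every letter read (depending on the state) and an
output word at the end computes a linear-time function.
-/

namespace Pool.Agent.Helper95.LT

open Pool.Agent.Helper86 Pool.Agent.Helper86.Prog
open scoped Computability

section loopS

variable {D : Device} {R σ : Type}

/-- Iteration with a parameter. -/
def loopS [hσ : Finite σ] (P : σ → Prog D (σ ⊕ R)) (s₀ : σ) : Prog D R where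
  Q := Σ s, (P s).Q
  finQ := by
    have := fun s => (P s).finQ
    infer_instance
  start := ⟨s₀, (P s₀).start⟩
  δ q o :=
    match (P q.1).δ q.2 o with
    | Sum.inl (Sum.inl s') => Sum.inr (⟨s', (P s').start⟩, D.idle)
    | Sum.inl (Sum.inr r) => Sum.inl r
    | Sum.inr (q', a) => Sum.inr (⟨q.1, q'⟩, a)

lemma loopS_ends_exit [Finite σ] {P : σ → Prog D (σ ⊕ R)} {s₀ s₁ : σ} {q : (P s₁).Q}
    {x x' : D.S} {t : ℕ} {r : R} (h : (P s₁).Ends q x t (Sum.inr r) x') :
    (loopS P s₀).Ends ⟨s₁, q⟩ x t r x' := by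
  generalize hr : (Sum.inr r : σ ⊕ R) = r₀ at h
  induction h with
  | @halt q x r₁ h =>
    subst hr
    exact Ends.halt (P := loopS P s₀) (by simp [loopS, h])
  | @step q x q' a t r₁ x' h _ ih =>
    subst hr
    exact Ends.step (P := loopS P s₀) (q := ⟨s₁, q⟩) (q' := ⟨s₁, q'⟩) (a := a)
      (by simp [loopS, h]) (ih rfl)

lemma loopS_ends_again [Finite σ] {P : σ → Prog D (σ ⊕ R)} {s₀ s₁ s₂ : σ} {q : (P s₁).Q}
    {x x₁ x' : D.S} {t t' : ℕ} {r : R} (h : (P s₁).Ends q x t (Sum.inl s₂) x₁)
    (h' : (loopS P s₀).Ends ⟨s₂, (P s₂).start⟩ x₁ t' r x') :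
    (loopS P s₀).Ends ⟨s₁, q⟩ x (t + 1 + t') r x' := by
  generalize hr : (Sum.inl s₂ : σ ⊕ R) = r₀ at h
  induction h with
  | @halt q x r₁ h =>
    subst hr
    rw [show 0 + 1 + t' = t' + 1 by omega]
    refine Ends.step (P := loopS P s₀) (q := ⟨s₁, q⟩) (q' := ⟨s₂, (P s₂).start⟩) (a := D.idle)
      (by simp [loopS, h]) ?_
    rw [D.act_idle]
    exact h'
  | @step q x q' a t r₁ x₁ h _ ih =>
    subst hr
    rw [show t + 1 + 1 + t' = (t + 1 + t') + 1 by omega]
    exact Ends.step (P := loopS P s₀) (q := ⟨s₁, q⟩) (q' := ⟨s₁, q'⟩) (a := a)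
      (by simp [loopS, h]) (ih h' rfl)

lemma loopS_exit [Finite σ] {P : σ → Prog D (σ ⊕ R)} {s₀ : σ} {x x' : D.S} {t : ℕ} {r : R}
    (h : (P s₀).Runs x t (Sum.inr r) x') : (loopS P s₀).Runs x t r x' := by
  obtain ⟨u, hu, h⟩ := h
  exact ⟨u, hu, loopS_ends_exit h⟩

/-- The starting parameter only determines the starting state. -/
lemma loopS_ends_change [Finite σ] {P : σ → Prog D (σ ⊕ R)} {s₀ s₁ : σ}
    {q : (loopS P s₁).Q} {x x' : D.S} {t : ℕ} {r : R} (h : (loopS P s₁).Ends q x t r x') :
    Ends (loopS P s₀) q x t r x' := by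
  induction h with
  | @halt q x r₁ h => exact Ends.halt (P := loopS P s₀) h
  | @step q x q' a t r₁ x' h _ ih => exact Ends.step (P := loopS P s₀) (q' := q') (a := a) h ih

lemma loopS_again [Finite σ] {P : σ → Prog D (σ ⊕ R)} {s₀ s₁ : σ} {x x₁ x' : D.S} {t t' : ℕ}
    {r : R} (h : (P s₀).Runs x t (Sum.inl s₁) x₁) (h' : (loopS P s₁).Runs x₁ t' r x') :
    (loopS P s₀).Runs x (t + 1 + t') r x' := by
  obtain ⟨u, hu, h⟩ := h
  obtain ⟨u', hu', h'⟩ := h'
  exact ⟨u + 1 + u', by omega, loopS_ends_again h (loopS_ends_change h')⟩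

end loopS

section rt

variable {α β : Type} (M : RTMachine α)

/-- The output of a real-time transducer: `g q x` for every letter `x` read in state `q`, and
`h q` at the end, started in the configuration `c`. -/
def rtout (g : M.Q → α → List β) (h : M.Q → List β) :
    (M.Q × ∀ i, Tape (M.Γ i)) → List α → List β
  | c, [] => h c.1
  | c, x :: w => g c.1 x ++ rtout g h (M.step c x) w

/-- the initial configuration -/
def rtinit : M.Q × (∀ i, Tape (M.Γ i)) := (M.start, fun i _ => M.blank i)

/-- The program of a real-time transducer. -/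
def rtBody [Finite α] (g : M.Q → α → List β) (h : M.Q → List β) (q : M.Q) :
    Prog (ioDev α β (workDev M.Γ)) (M.Q ⊕ Unit) :=
  have := M.finι
  have := M.finΓ
  lookThen (D := ioDev α β (workDev M.Γ)) (fun o => (o.1, o.2.2)) fun o =>
    match o.1 with
    | none => (lift (eT α β (workDev M.Γ)) (pushList (h q))).seq (ret (Sum.inr ()))
    | some x => (lift (eT α β (workDev M.Γ)) (pushList (g q x))).seq
        ((lift (eD α β (workDev M.Γ)) (doAct (D := workDev M.Γ) (some (M.δ q x o.2).2))).seq
          ((lift (eI α β (workDev M.Γ)) (inR α)).seq (ret (Sum.inl (M.δ q x o.2).1))))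

lemma rtBody_none [Finite α] (g : M.Q → α → List β) (h : M.Q → List β) (q : M.Q) (u : List α)
    (l : List β) (d : ∀ i, Tape (M.Γ i)) :
    (rtBody M g h q).Runs (tp u [], tp [] l, d) (2 * (h q).length) (Sum.inr ())
      (tp u [], tp [] ((h q).reverse ++ l), d) := by
  have := M.finι
  have := M.finΓ
  apply lookThen_runs
  have h1 : ((ioDev α β (workDev M.Γ)).obs (tp u ([] : List α), tp [] l, d)).1 = none :=
    tp_zero u []
  have h2 := liftT_runs (α := α) (D := workDev M.Γ) (pushList_runs (h q) l) (tp u []) d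
  have h3 := seq_runs h2 (ret_runs (Sum.inr () : M.Q ⊕ Unit) _)
  exact h3.mono (by omega)

lemma rtBody_some [Finite α] (g : M.Q → α → List β) (h : M.Q → List β)
    (c : M.Q × ∀ i, Tape (M.Γ i)) (x : α) (u v : List α) (l : List β) :
    (rtBody M g h c.1).Runs (tp u (x :: v), tp [] l, c.2) (2 * (g c.1 x).length + 2)
      (Sum.inl (M.step c x).1)
      (tp (x :: u) v, tp [] ((g c.1 x).reverse ++ l), (M.step c x).2) := by
  have := M.finι
  have := M.finΓ
  apply lookThen_runs
  have h1 : ((ioDev α β (workDev M.Γ)).obs (tp u (x :: v), tp [] l, c.2)).1 = some x :=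
    tp_zero u (x :: v)
  have h2 := liftT_runs (α := α) (D := workDev M.Γ) (pushList_runs (g c.1 x) l)
    (tp u (x :: v)) c.2
  have h3 := liftD_runs (α := α) (β := β)
    (doAct_runs (D := workDev M.Γ) (some (M.δ c.1 x (fun i => c.2 i 0)).2) c.2)
    (tp u (x :: v)) (tp [] ((g c.1 x).reverse ++ l))
  have h4 := liftI_runs (β := β) (D := workDev M.Γ) (inR_runs (tp u (x :: v)))
    (tp [] ((g c.1 x).reverse ++ l)) (M.step c x).2
  rw [tp_right] at h4
  have h5 := seq_runs h2 (seq_runs h3 (seq_runs h4
    (ret_runs (Sum.inl (M.step c x).1 : M.Q ⊕ Unit) _)))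
  refine Runs.mono ?_ (t := 2 * (g c.1 x).length + (1 + (1 + 0))) (by omega)
  exact h5

lemma rt_runs [Finite α] (g : M.Q → α → List β) (h : M.Q → List β) (K : ℕ)
    (hg : ∀ q x, (g q x).length ≤ K) (hh : ∀ q, (h q).length ≤ K) (v : List α) :
    ∀ (c : M.Q × ∀ i, Tape (M.Γ i)) (u : List α) (l : List β),
      have := M.finQ
      ∃ d', (loopS (rtBody M g h) c.1).Runs (tp u v, tp [] l, c.2)
        ((2 * K + 3) * v.length + 2 * K) ()
        (tp (v.reverse ++ u) [], tp [] ((rtout M g h c v).reverse ++ l), d') := by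
  have := M.finQ
  induction v with
  | nil =>
    intro c u l
    refine ⟨c.2, ?_⟩
    apply loopS_exit
    refine (rtBody_none M g h c.1 u l c.2).mono ?_
    have := hh c.1
    simp only [List.length_nil]
    omega
  | cons x v ih =>
    intro c u l
    obtain ⟨d', h1⟩ := ih (M.step c x) (x :: u) ((g c.1 x).reverse ++ l)
    refine ⟨d', ?_⟩
    have h2 := loopS_again (rtBody_some M g h c x u v l) h1
    have e1 : (rtout M g h (M.step c x) v).reverse ++ ((g c.1 x).reverse ++ l) =
        (rtout M g h c (x :: v)).reverse ++ l := by simp [rtout]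
    have e2 : v.reverse ++ x :: u = (x :: v).reverse ++ u := by simp
    rw [e1, e2] at h2
    refine h2.mono ?_
    have := hg c.1 x
    simp only [List.length_cons]
    ring_nf
    omega

lemma rtout_length (g : M.Q → α → List β) (h : M.Q → List β) (K : ℕ)
    (hg : ∀ q x, (g q x).length ≤ K) (hh : ∀ q, (h q).length ≤ K) (v : List α) :
    ∀ (c : M.Q × ∀ i, Tape (M.Γ i)), (rtout M g h c v).length ≤ K * (v.length + 1) := by
  induction v with
  | nil => intro c; simpa [rtout] using hh c.1
  | cons x v ih =>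
    intro c
    have h1 := ih (M.step c x)
    have h2 := hg c.1 x
    rw [rtout, List.length_append, List.length_cons]
    nlinarith

lemma exists_bound {ι β : Type} [Finite ι] (g : ι → List β) : ∃ K, ∀ i, (g i).length ≤ K := by
  have : Fintype ι := Fintype.ofFinite ι
  exact ⟨Finset.univ.sup (fun x => (g x).length),
    fun x => Finset.le_sup (f := fun x => (g x).length) (Finset.mem_univ x)⟩

/-- The reversed output of a real-time transducer is a linear-time function. -/
lemma LinFun.rtRev [Finite α] (g : M.Q → α → List β) (h : M.Q → List β) :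
    LinFun (fun w => (rtout M g h (rtinit M) w).reverse) := by
  have hQ := M.finQ
  have hι := M.finι
  have hΓ := M.finΓ
  obtain ⟨K₁, hK₁⟩ := exists_bound (fun p : M.Q × α => g p.1 p.2)
  obtain ⟨K₂, hK₂⟩ := exists_bound h
  set K := K₁ + K₂ with hK
  have hg : ∀ q x, (g q x).length ≤ K := fun q x => (hK₁ (q, x)).trans (by omega)
  have hh : ∀ q, (h q).length ≤ K := fun q => (hK₂ q).trans (by omega)
  refine ⟨workDev M.Γ, Impl.work M.Γ M.blank,
    (loopS (rtBody M g h) M.start).seq (passL (fun _ => [])),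
    4 * K + 9, fun w => ?_, fun w l => ?_⟩
  · rw [List.length_reverse]
    have := rtout_length M g h K hg hh w (rtinit M)
    nlinarith [Nat.zero_le (K * (w.length + 1))]
  · obtain ⟨d', h1⟩ := rt_runs M g h K hg hh w (rtinit M) [] l
    have h2 := passL_runs (α := α) (β := β) (D := workDev M.Γ) (fun _ => []) 0
      (by simp) w.reverse [] ((rtout M g h (rtinit M) w).reverse ++ l) d'
    have e2 : ((w.reverse.flatMap fun _ => ([] : List β)).reverse ++
        ((rtout M g h (rtinit M) w).reverse ++ l)) = (rtout M g h (rtinit M) w).reverse ++ l := by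
      have : (w.reverse.flatMap fun _ => ([] : List β)) = [] := by simp
      rw [this]; rfl
    rw [List.append_nil] at h1
    rw [e2, List.reverse_reverse, List.append_nil, List.length_reverse] at h2
    refine ⟨d', (seq_runs h1 h2).mono ?_⟩
    nlinarith [Nat.zero_le (K * w.length)]

/-- The output of a real-time transducer is a linear-time function. -/
theorem LinFun.rt [Finite α] [Finite β] (g : M.Q → α → List β) (h : M.Q → List β) :
    LinFun (fun w => rtout M g h (rtinit M) w) := by
  have h1 := LinFun.comp (LinFun.reverse (α := β)) (LinFun.rtRev M g h)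
  simpa only [List.reverse_reverse] using h1

end rt

section gsm

variable {α β σ : Type}

/-- The output of a finite-state transducer. -/
def tout (f : σ → α → σ) (g : σ → α → List β) (h : σ → List β) : σ → List α → List β
  | s, [] => h s
  | s, x :: w => g s x ++ tout f g h (f s x) w

/-- a real-time machine without work tapes -/
def fstMachine [hσ : Finite σ] (f : σ → α → σ) (s₀ : σ) : RTMachine α where
  ι := Empty
  finι := inferInstance
  Γ := fun _ => Unit
  finΓ := fun _ => inferInstance
  blank := fun _ => ()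
  Q := σ
  finQ := hσ
  start := s₀
  δ := fun q a _ => (f q a, fun i => nomatch i)
  acc := ∅

lemma rtout_fst [Finite σ] (f : σ → α → σ) (s₀ : σ) (g : σ → α → List β) (h : σ → List β)
    (w : List α) : ∀ c : σ × (∀ i : Empty, Tape Unit),
      rtout (fstMachine f s₀) g h c w = tout f g h c.1 w := by
  induction w with
  | nil => intro c; rfl
  | cons x w ih =>
    intro c
    show g c.1 x ++ rtout (fstMachine f s₀) g h _ w = g c.1 x ++ _
    rw [ih]
    rfl

/-- The function of a finite-state transducer is a linear-time function. -/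
theorem LinFun.fst [Finite α] [Finite β] [Finite σ] (f : σ → α → σ) (g : σ → α → List β)
    (h : σ → List β) (s₀ : σ) : LinFun (fun w => tout f g h s₀ w) := by
  have h1 := LinFun.rt (fstMachine f s₀) g h
  have e : (fun w => rtout (fstMachine f s₀) g h (rtinit (fstMachine f s₀)) w) =
      fun w => tout f g h s₀ w := by
    funext w
    exact rtout_fst f s₀ g h w _
  rwa [e] at h1

end gsm

end Pool.Agent.Helper95.LT
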